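import Pool.Agent.H211.LR.Space

/-! Proportions in balls and in discs, for an arbitrary finite set of coordinates (as in
`Pool.Agent.H211.LD.Ball`). -/

set_option autoImplicit false

open Filter Topology Metric Set MeasureTheory Polynomial
open scoped ENNReal Pointwise

namespace Pool.Agent.H211.LR

open Pool.Agent.H211.LD (avg)

/-- the proportion of the set `B` in the ball of radius `2 ^ (- k)` around `a₀` -/
noncomputable def prop {ι : Type} [Fintype ι] (B : Set (ι → ℂ)) (a₀ : ι → ℂ) (k : ℕ) : ℝ≥0∞ :=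
  volume (B ∩ ball a₀ ((1 / 2) ^ k)) / volume (ball a₀ ((1 / 2) ^ k))

theorem prop_le {ι : Type} [Fintype ι] (B : Set (ι → ℂ)) (a₀ : ι → ℂ) (k : ℕ) : prop B a₀ k ≤ 1 := by
  unfold prop
  apply ENNReal.div_le_of_le_mul
  rw [one_mul]
  exact measure_mono inter_subset_right

/-- the proportion of the set `B`, near `a₀`, in the direction `b` (up to a factor) -/
noncomputable def lin {ι : Type} [Fintype ι] (B : Set (ι → ℂ)) (a₀ : ι → ℂ) (r₀ : ℝ) (k : ℕ)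
    (b : ι → ℂ) : ℝ≥0∞ :=
  volume {s : ℂ | ‖s‖ < (1 / 2) ^ (k + 1) ∧ a₀ + s • b ∈ B ∩ ball a₀ r₀} /
    ENNReal.ofReal (((1 / 2) ^ (k + 1)) ^ 2)

theorem lin_meas {ι : Type} [Fintype ι] {B : Set (ι → ℂ)} {a₀ : ι → ℂ} {r₀ : ℝ}
    (hB : MeasurableSet (B ∩ ball a₀ r₀)) (k : ℕ) : Measurable (lin B a₀ r₀ k) := by
  unfold lin
  refine Measurable.div_const ?_ _
  have h0 : Measurable (fun p : (ι → ℂ) × ℂ => ‖p.2‖) := by fun_prop
  have h1 : Measurable (fun p : (ι → ℂ) × ℂ => a₀ + p.2 • p.1) := by fun_prop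
  have hS : MeasurableSet {p : (ι → ℂ) × ℂ | ‖p.2‖ < (1 / 2) ^ (k + 1) ∧
      a₀ + p.2 • p.1 ∈ B ∩ ball a₀ r₀} := (measurableSet_lt h0 measurable_const).inter (h1 hB)
  exact measurable_measure_prodMk_left hS

theorem lin_le {ι : Type} [Fintype ι] (B : Set (ι → ℂ)) (a₀ : ι → ℂ) (r₀ : ℝ) (k : ℕ)
    (b : ι → ℂ) : lin B a₀ r₀ k b ≤ ENNReal.ofReal 4 := by
  unfold lin
  apply ENNReal.div_le_of_le_mul
  calc volume {s : ℂ | ‖s‖ < (1 / 2) ^ (k + 1) ∧ a₀ + s • b ∈ B ∩ ball a₀ r₀}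
      ≤ volume (ball (0 : ℂ) ((1 / 2) ^ (k + 1))) :=
        measure_mono fun s hs => mem_ball_zero_iff.2 hs.1
    _ = ENNReal.ofReal (((1 / 2) ^ (k + 1)) ^ 2) * ENNReal.ofReal Real.pi := by
        rw [Complex.volume_ball, ← ENNReal.ofReal_pow (by positivity)]
        congr 1
        rw [← NNReal.coe_real_pi, ENNReal.ofReal_coe_nnreal]
    _ ≤ _ := by
        rw [mul_comm]
        gcongr
        exact Real.pi_le_four

/-- the proportion in the balls is bounded by the mean proportion in the directions -/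
theorem ball_prop {ι : Type} [Fintype ι] {a₀ : ι → ℂ} {B : Set (ι → ℂ)} {r₀ : ℝ} (hr₀ : 0 < r₀)
    (hB : MeasurableSet (B ∩ ball a₀ r₀)) : ∃ C : ℝ≥0∞, C ≠ ⊤ ∧ ∃ k₀ : ℕ, ∀ k ≥ k₀,
      prop B a₀ (k + 2) ≤ C * ∫⁻ b in ball (0 : ι → ℂ) 1, lin B a₀ r₀ k b := by
  set F := Module.finrank ℝ (ι → ℂ) with hF
  set β := (volume : Measure (ι → ℂ)) (ball 0 1) with hβ
  have hβ0 : β ≠ 0 := (measure_ball_pos _ _ one_pos).ne'
  have hβ1 : β ≠ ⊤ := measure_ball_lt_top.ne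
  obtain ⟨k₀, hk₀⟩ := exists_pow_lt_of_lt_one hr₀ (by norm_num : (1 / 2 : ℝ) < 1)
  refine ⟨ENNReal.ofReal (16 * 2 ^ F) / β, ENNReal.div_ne_top ENNReal.ofReal_ne_top hβ0, k₀, ?_⟩
  intro k hk
  set r : ℝ := (1 / 2) ^ (k + 1) with hr
  have hr0 : 0 < r := by positivity
  have hr2 : ((1 / 2 : ℝ)) ^ (k + 2) = r / 2 := by rw [hr, pow_succ _ (k + 1)]; ring
  have hrr : r / 2 ≤ r₀ := by
    rw [← hr2]
    exact (pow_le_pow_of_le_one (by norm_num) (by norm_num) (by omega)).trans hk₀.le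
  -- translate
  set M : Set (ι → ℂ) := (fun x => a₀ + x) ⁻¹' (B ∩ ball a₀ r₀) with hM
  have hMm : MeasurableSet M := (measurable_const_add a₀) hB
  have h1 : volume (B ∩ ball a₀ (r / 2)) = volume (M ∩ ball 0 (r / 2)) := by
    rw [← measure_preimage_add volume a₀ (B ∩ ball a₀ (r / 2))]
    congr 1
    ext x
    simp only [hM, mem_preimage, mem_inter_iff, mem_ball, dist_eq_norm, add_sub_cancel_left,
      sub_zero]
    constructor
    · rintro ⟨h, h'⟩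
      exact ⟨⟨h, h'.trans_le hrr⟩, h'⟩
    · rintro ⟨⟨h, -⟩, h'⟩
      exact ⟨h, h'⟩
  have h2 := average hMm hr0
  have h3 : volume (ball a₀ (r / 2)) = ENNReal.ofReal ((r / 2) ^ F) * β := by
    rw [Measure.addHaar_ball_of_pos _ _ (by positivity)]
  have h4 : ∫⁻ b in ball (0 : ι → ℂ) 1, lin B a₀ r₀ k b =
      (∫⁻ b in ball (0 : ι → ℂ) 1, volume {s : ℂ | ‖s‖ < r ∧ s • b ∈ M}) /
        ENNReal.ofReal (r ^ 2) := by
    simp only [lin, div_eq_mul_inv]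
    rw [lintegral_mul_const']
    · rfl
    · simp only [ne_eq, ENNReal.inv_eq_top, ENNReal.ofReal_eq_zero, not_le]
      positivity
  rw [h4, prop, hr2, h1, h3]
  set I := ∫⁻ b in ball (0 : ι → ℂ) 1, volume {s : ℂ | ‖s‖ < r ∧ s • b ∈ M} with hI
  have hx0 : ENNReal.ofReal (r ^ 2) ≠ 0 := by
    rw [ne_eq, ENNReal.ofReal_eq_zero, not_le]
    positivity
  have hy0 : ENNReal.ofReal ((r / 2) ^ F) ≠ 0 := by
    rw [ne_eq, ENNReal.ofReal_eq_zero, not_le]
    positivity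
  have h5 : ENNReal.ofReal (16 * r ^ F) = ENNReal.ofReal (16 * 2 ^ F) *
      ENNReal.ofReal ((r / 2) ^ F) := by
    rw [← ENNReal.ofReal_mul (by positivity)]
    congr 1
    rw [div_pow]
    field_simp
  apply ENNReal.div_le_of_le_mul
  have h6 : volume (M ∩ ball 0 (r / 2)) ≤
      ENNReal.ofReal (16 * r ^ F) * I / ENNReal.ofReal (r ^ 2) := by
    rw [ENNReal.le_div_iff_mul_le (Or.inl hx0) (Or.inl ENNReal.ofReal_ne_top), mul_comm]
    exact h2
  refine h6.trans (le_of_eq ?_)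
  rw [h5]
  calc ENNReal.ofReal (16 * 2 ^ F) * ENNReal.ofReal ((r / 2) ^ F) * I / ENNReal.ofReal (r ^ 2)
      = ENNReal.ofReal (16 * 2 ^ F) * 1 * (I / ENNReal.ofReal (r ^ 2)) *
          ENNReal.ofReal ((r / 2) ^ F) := by
        rw [mul_div_assoc]
        ring
    _ = ENNReal.ofReal (16 * 2 ^ F) * (β⁻¹ * β) * (I / ENNReal.ofReal (r ^ 2)) *
          ENNReal.ofReal ((r / 2) ^ F) := by
        rw [ENNReal.inv_mul_cancel hβ0 hβ1]
    _ = _ := by
        rw [div_eq_mul_inv (ENNReal.ofReal (16 * 2 ^ F))]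
        ring

/-- the proportion of the set `B` in the disc of radius `2 ^ (- k)` in the direction `b` -/
noncomputable def propLine {ι : Type} [Fintype ι] (B : Set (ι → ℂ)) (a₀ b : ι → ℂ) (k : ℕ) : ℝ≥0∞ :=
  volume {s : ℂ | s ∈ ball (0 : ℂ) ((1 / 2) ^ k) ∧ a₀ + s • b ∈ B} /
    volume (ball (0 : ℂ) ((1 / 2) ^ k))

theorem propLine_le {ι : Type} [Fintype ι] (B : Set (ι → ℂ)) (a₀ b : ι → ℂ) (k : ℕ) :
    propLine B a₀ b k ≤ 1 := by
  unfold propLine
  apply ENNReal.div_le_of_le_mul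
  rw [one_mul]
  exact measure_mono fun s hs => hs.1

theorem propLine_lin {ι : Type} [Fintype ι] {B : Set (ι → ℂ)} {a₀ b : ι → ℂ} {r₀ : ℝ} (hr₀ : 0 < r₀) :
    ∃ k₀ : ℕ, ∀ k ≥ k₀, propLine B a₀ b (k + 1) ≤ 1 * lin B a₀ r₀ k b := by
  obtain ⟨k₀, hk₀⟩ := exists_pow_lt_of_lt_one (show 0 < r₀ / (‖b‖ + 1) by positivity)
    (by norm_num : (1 / 2 : ℝ) < 1)
  refine ⟨k₀, fun k hk => ?_⟩
  rw [one_mul]
  unfold propLine lin
  have h1 : {s : ℂ | s ∈ ball (0 : ℂ) ((1 / 2) ^ (k + 1)) ∧ a₀ + s • b ∈ B} ⊆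
      {s : ℂ | ‖s‖ < (1 / 2) ^ (k + 1) ∧ a₀ + s • b ∈ B ∩ ball a₀ r₀} := by
    rintro s ⟨hs, hsB⟩
    rw [mem_ball_zero_iff] at hs
    refine ⟨hs, hsB, ?_⟩
    rw [mem_ball, dist_eq_norm, add_sub_cancel_left, norm_smul]
    have h2 : ‖s‖ < r₀ / (‖b‖ + 1) := by
      refine hs.trans_le (le_trans ?_ hk₀.le)
      exact pow_le_pow_of_le_one (by norm_num) (by norm_num) (by omega)
    rw [lt_div_iff₀ (by positivity)] at h2
    nlinarith [norm_nonneg s, norm_nonneg b]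
  have h2 : ENNReal.ofReal (((1 / 2 : ℝ) ^ (k + 1)) ^ 2) ≤
      volume (ball (0 : ℂ) ((1 / 2) ^ (k + 1))) := by
    rw [Complex.volume_ball, ← ENNReal.ofReal_pow (by positivity)]
    have : (NNReal.pi : ℝ≥0∞) = ENNReal.ofReal Real.pi := by
      rw [← NNReal.coe_real_pi, ENNReal.ofReal_coe_nnreal]
    rw [this]
    calc ENNReal.ofReal (((1 / 2 : ℝ) ^ (k + 1)) ^ 2)
        = ENNReal.ofReal (((1 / 2 : ℝ) ^ (k + 1)) ^ 2) * 1 := by rw [mul_one]
      _ ≤ _ := by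
          gcongr
          rw [← ENNReal.ofReal_one]
          apply ENNReal.ofReal_le_ofReal
          have := Real.pi_gt_three
          linarith
  exact ENNReal.div_le_div (measure_mono h1) h2

/-- proper subspaces are null sets -/
theorem proper_null {ι : Type} [Fintype ι] {V : Submodule ℂ (ι → ℂ)} (hV : V ≠ ⊤) :
    volume (V : Set (ι → ℂ)) = 0 := by
  have h1 := Measure.addHaar_submodule (volume : Measure (ι → ℂ))
    (V.restrictScalars ℝ) (by
      intro h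
      apply hV
      rw [eq_top_iff]
      intro x _
      have : x ∈ V.restrictScalars ℝ := by rw [h]; trivial
      exact this)
  exact h1

end Pool.Agent.H211.LR
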