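import Pool.Agent.H211.LR.Dirs
import Pool.Agent.H211.LD.Weak

/-! The final forms. -/

set_option autoImplicit false

open Filter Topology Metric Set Polynomial MeasureTheory
open scoped OnePoint ENNReal

namespace Pool.Agent.H211.LR

open Pool.Agent.Helper114.Herman
open Pool.Agent.H792R2.CE
open Pool.Agent.H211.LD (avg cnt cnt_mono avg_cnt avg_shift_tendsto avg_shift_freq avg_dom avg_freq
  freq_div liminf_zero tendsto_of_div common_rate)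

/-- in one line, along the times at which the derivatives have grown, the mean proportion tends to
zero -/
theorem line_avg {ι : Type} [Fintype ι] {B : Set (ι → ℂ)} {a₀ b : ι → ℂ} {G : ℕ → Prop}
    {Q : ℕ} (hQ : 0 < Q)
    (h : ∀ ε η : ℝ, 0 < ε → 0 < η → ∃ N₀, ∀ n ≥ N₀, G n →
          (cnt (fun k => ¬ volume {s : ℂ | ‖s‖ < (1 / 2) ^ (k + 1) ∧ a₀ + s • b ∈ B} ≤
            ENNReal.ofReal (ε * ((1 / 2) ^ (k + 1)) ^ 2)) (n / Q) : ℝ) ≤ η * (n / Q : ℕ))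
    (r₀ : ℝ) {δ : ℝ≥0∞} (hδ : 0 < δ) :
    ∃ N₀, ∀ n ≥ N₀, G n → avg (fun k => lin B a₀ r₀ k b) (n / Q) ≤ δ := by
  obtain ⟨δ', hδ', hδδ⟩ : ∃ δ' : ℝ, 0 < δ' ∧ ENNReal.ofReal δ' ≤ δ := by
    rcases eq_or_ne δ ⊤ with h1 | h1
    · exact ⟨1, one_pos, by rw [h1]; exact le_top⟩
    · exact ⟨δ.toReal, ENNReal.toReal_pos hδ.ne' h1, ENNReal.ofReal_toReal_le⟩
  obtain ⟨N₀, hN₀⟩ := h (δ' / 2) (δ' / 8) (by positivity) (by positivity)
  refine ⟨max N₀ Q, fun n hn hG => ?_⟩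
  have h1 := hN₀ n ((le_max_left _ _).trans hn) hG
  have h2 : 0 < n / Q := Nat.div_pos ((le_max_right _ _).trans hn) hQ
  refine le_trans ?_ hδδ
  have h3 : (cnt (fun k => ¬ lin B a₀ r₀ k b ≤ ENNReal.ofReal (δ' / 2)) (n / Q) : ℝ) ≤
      δ' / 8 * (n / Q : ℕ) := by
    refine le_trans ?_ h1
    have h4 : cnt (fun k => ¬ lin B a₀ r₀ k b ≤ ENNReal.ofReal (δ' / 2)) (n / Q) ≤
        cnt (fun k => ¬ volume {s : ℂ | ‖s‖ < (1 / 2) ^ (k + 1) ∧ a₀ + s • b ∈ B} ≤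
            ENNReal.ofReal (δ' / 2 * ((1 / 2) ^ (k + 1)) ^ 2)) (n / Q) := by
      refine cnt_mono (fun k hk hk2 => hk ?_) _
      unfold lin
      apply ENNReal.div_le_of_le_mul
      rw [← ENNReal.ofReal_mul (by positivity)]
      refine (measure_mono ?_).trans hk2
      rintro s ⟨hs1, hs2⟩
      exact ⟨hs1, hs2.1⟩
    exact_mod_cast h4
  have h5 := avg_cnt (by norm_num : (0 : ℝ) ≤ 4) (by positivity : 0 ≤ δ' / 2)
    (fun k => lin_le B a₀ r₀ k b) h3 h2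
  refine h5.trans (ENNReal.ofReal_le_ofReal (le_of_eq ?_))
  ring

/-- the statement on the scales of a line -/
def ScalesOk {ι : Type} [Fintype ι] (B : Set (ι → ℂ)) (a₀ : ι → ℂ) (G : ℕ → Prop)
    (b : ι → ℂ) : Prop :=
  ∃ q : ℕ, 0 < q ∧ ∀ Q ≥ q, ∀ ε η : ℝ, 0 < ε → 0 < η → ∃ N₀, ∀ n ≥ N₀, G n →
    (cnt (fun k => ¬ volume {s : ℂ | ‖s‖ < (1 / 2) ^ (k + 1) ∧ a₀ + s • b ∈ B} ≤
      ENNReal.ofReal (ε * ((1 / 2) ^ (k + 1)) ^ 2)) (n / Q) : ℝ) ≤ η * (n / Q : ℕ)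

/-- all late times -/
theorem combine_lim {ι : Type} [Fintype ι] {B : Set (ι → ℂ)} {a₀ : ι → ℂ} {r₀ : ℝ}
    (hr₀ : 0 < r₀) (hmeas : MeasurableSet (B ∩ ball a₀ r₀))
    {𝒱 : Finset (Submodule ℂ (ι → ℂ))} (h𝒱 : ∀ V ∈ 𝒱, V ≠ ⊤) {G : ℕ → Prop}
    (hG : ∀ᶠ n in atTop, G n) (h : ∀ b : ι → ℂ, (∀ V ∈ 𝒱, b ∉ V) → ScalesOk B a₀ G b) :
    (∀ b : ι → ℂ, (∀ V ∈ 𝒱, b ∉ V) →
        Tendsto (fun N => avg (propLine B a₀ b) N) atTop (𝓝 0)) ∧
    Tendsto (fun N => avg (prop B a₀) N) atTop (𝓝 0) := by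
  have hlin : ∀ b : ι → ℂ, (∀ V ∈ 𝒱, b ∉ V) →
      Tendsto (fun N => avg (fun k => lin B a₀ r₀ k b) N) atTop (𝓝 0) := by
    intro b hb
    obtain ⟨q, hq, h1⟩ := h b hb
    refine tendsto_of_div hq fun δ hδ => ?_
    obtain ⟨N₀, hN₀⟩ := line_avg hq (h1 q le_rfl) r₀ hδ
    obtain ⟨N₁, hN₁⟩ := Filter.eventually_atTop.1 hG
    exact ⟨max N₀ N₁, fun n hn => hN₀ n ((le_max_left _ _).trans hn)
      (hN₁ n ((le_max_right _ _).trans hn))⟩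
  refine ⟨fun b hb => ?_, ?_⟩
  · obtain ⟨k₀, hk₀⟩ := propLine_lin (B := B) (a₀ := a₀) (b := b) hr₀
    exact avg_shift_tendsto ENNReal.one_ne_top (propLine_le _ _ _) hk₀ (hlin b hb)
  · obtain ⟨C, hC, k₀, hk₀⟩ := ball_prop hr₀ hmeas
    refine avg_shift_tendsto hC (prop_le _ _) hk₀ ?_
    have hfin : IsFiniteMeasure ((volume : Measure (ι → ℂ)).restrict (ball 0 1)) :=
      ⟨by rw [Measure.restrict_apply_univ]; exact measure_ball_lt_top⟩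
    refine avg_dom (ν := (volume : Measure (ι → ℂ)).restrict (ball 0 1))
      (w := fun k b => lin B a₀ r₀ k b) (fun k => lin_meas hmeas k)
      (B := 4) (fun k b => lin_le _ _ _ _ _) ?_
    have h1 : ∀ᵐ b : ι → ℂ, ∀ V ∈ 𝒱, b ∉ V := by
      rw [Filter.eventually_all_finset]
      intro V hV
      have h2 := proper_null (h𝒱 V hV)
      exact measure_eq_zero_iff_ae_notMem.1 h2
    exact (ae_restrict_of_ae h1).mono fun b hb => hlin b hb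

/-- infinitely many times -/
theorem combine_freq {ι : Type} [Fintype ι] {B : Set (ι → ℂ)} {a₀ : ι → ℂ} {r₀ : ℝ}
    (hr₀ : 0 < r₀) (hmeas : MeasurableSet (B ∩ ball a₀ r₀))
    {𝒱 : Finset (Submodule ℂ (ι → ℂ))} (h𝒱 : ∀ V ∈ 𝒱, V ≠ ⊤) {G : ℕ → Prop}
    (hG : ∃ᶠ n in atTop, G n) (h : ∀ b : ι → ℂ, (∀ V ∈ 𝒱, b ∉ V) → ScalesOk B a₀ G b) :
    (∀ b : ι → ℂ, (∀ V ∈ 𝒱, b ∉ V) →
        liminf (fun N => avg (propLine B a₀ b) N) atTop = 0) ∧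
    liminf (fun N => avg (prop B a₀) N) atTop = 0 := by
  refine ⟨fun b hb => liminf_zero ?_, liminf_zero ?_⟩
  · obtain ⟨k₀, hk₀⟩ := propLine_lin (B := B) (a₀ := a₀) (b := b) hr₀
    refine avg_shift_freq ENNReal.one_ne_top (propLine_le _ _ _) hk₀ fun δ hδ => ?_
    obtain ⟨q, hq, h1⟩ := h b hb
    exact freq_div hq hG (line_avg hq (h1 q le_rfl) r₀ hδ)
  · obtain ⟨C, hC, k₀, hk₀⟩ := ball_prop hr₀ hmeas
    refine avg_shift_freq hC (prop_le _ _) hk₀ ?_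
    have hfin : IsFiniteMeasure ((volume : Measure (ι → ℂ)).restrict (ball 0 1)) :=
      ⟨by rw [Measure.restrict_apply_univ]; exact measure_ball_lt_top⟩
    refine avg_freq (ν := (volume : Measure (ι → ℂ)).restrict (ball 0 1))
      (w := fun k b => lin B a₀ r₀ k b) (fun k => lin_meas hmeas k)
      (B := 4) (fun k b => lin_le _ _ _ _ _) hG ?_
    have h1 : ∀ᵐ b : ι → ℂ, ∀ V ∈ 𝒱, b ∉ V := by
      rw [Filter.eventually_all_finset]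
      intro V hV
      have h2 := proper_null (h𝒱 V hV)
      exact measure_eq_zero_iff_ae_notMem.1 h2
    refine (ae_restrict_of_ae h1).mono fun b hb => ?_
    obtain ⟨q, hq, h3⟩ := h b hb
    exact ⟨q, hq, fun Q hQ δ hδ => line_avg (lt_of_lt_of_le hq hQ) (h3 Q hQ) r₀ hδ⟩

/-- **The scales of the generic lines.** -/
theorem rlines {d : ℕ} (hd : 2 ≤ d) {x₀ : EE d} (hPQ : IsCoprime (PP x₀) (QQ x₀))
    (hQd : (QQ x₀).natDegree = d) (hinf : Att d (PP x₀) (QQ x₀) ∞)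
    (hnull : volume {z : ℂ | ¬ Att d (PP x₀) (QQ x₀) (z : OnePoint ℂ)} = 0)
    {μ : ℝ} (hμ : 1 < μ) (hexp : ∃ᶠ n : ℕ in atTop, GrR d (PP x₀) (QQ x₀) μ n)
    (hsimple : ∀ c : ℂ, (wr (PP x₀) (QQ x₀)).eval c = 0 →
      ¬ Att d (PP x₀) (QQ x₀) (c : OnePoint ℂ) →
      (wr (PP x₀) (QQ x₀)).rootMultiplicity c = 1 →
        Summable fun m => ‖deriv ((rf (PP x₀) (QQ x₀))^[m]) (rf (PP x₀) (QQ x₀) c)‖⁻¹) :
    ∃ 𝒱 : Finset (Submodule ℂ (EE d)), 𝒱.card ≤ 4 * (d - 1) ∧ (∀ V ∈ 𝒱, V ≠ ⊤) ∧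
      ∀ b : EE d, (∀ V ∈ 𝒱, b ∉ V) →
        ScalesOk (rbad d) x₀ (GrR d (PP x₀) (QQ x₀) μ) b := by
  obtain ⟨𝒱, h1, h2, h3⟩ := dirs hd hPQ (PP_deg x₀) hQd hinf hnull hμ hexp hsimple
  refine ⟨𝒱, h1, h2, fun b hb => ?_⟩
  obtain ⟨h4, h5⟩ := h3 b hb
  have h6 := rcore_scales hd hPQ (PP_deg x₀) hQd (PP_deg b) (QQ_deg b) hinf hnull hμ hexp h4 h5
  have h7 : ∀ s : ℂ, x₀ + s • b ∈ rbad d ↔
      ¬ GoodR d (PP x₀ + C s * PP b) (QQ x₀ + C s * QQ b) := by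
    intro s
    unfold rbad
    rw [Set.mem_ofPred_eq, PP_add_smul, QQ_add_smul]
  unfold ScalesOk
  simp only [h7]
  exact h6

theorem rbad_meas {d : ℕ} (hd : 2 ≤ d) (x₀ : EE d) (r₀ : ℝ) :
    MeasurableSet (rbad d ∩ ball x₀ r₀) := by
  refine MeasurableSet.inter ?_ measurableSet_ball
  exact (goodE_open (by omega)).measurableSet.compl

/-- a map with good coefficients is hyperbolic -/
theorem good_hyp {d : ℕ} (hd : 2 ≤ d) {P Q : ℂ[X]} (h : GoodR d P Q) :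
    IsCoprime P Q ∧ max P.natDegree Q.natDegree = d ∧
      ∃ f : OnePoint ℂ → OnePoint ℂ, Continuous f ∧
        (∀ z : ℂ, Q.eval z ≠ 0 →
          f (OnePoint.some z) = OnePoint.some (P.eval z / Q.eval z)) ∧
        ∀ c : OnePoint ℂ, (¬ ∃ U ∈ nhds c, Set.InjOn f U) →
          ∃ z : OnePoint ℂ, ∃ n : ℕ, 0 < n ∧ f^[n] z = z ∧
            (∃ U ∈ nhds z, ∀ w ∈ U,
              Filter.Tendsto (fun k : ℕ => f^[n * k] w) Filter.atTop (nhds z)) ∧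
            Filter.Tendsto (fun k : ℕ => f^[n * k] c) Filter.atTop (nhds z) := by
  obtain ⟨hc, hPd, hQd, hinf, hcr⟩ := h
  have hcont := B1_continuous hc hPd hQd
  refine ⟨hc, by rw [hQd]; exact max_eq_right hPd, sph d P Q, hcont, fun z hz => ?_, ?_⟩
  · exact sph_coe_of_ne hz
  · intro c hcrit
    have h1 : Att d P Q c := by
      induction c using OnePoint.rec with
      | infty => exact hinf
      | coe z =>
        by_cases hN : (wr P Q).eval z = 0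
        · exact hcr z hN
        · by_cases hQ : Q.eval z = 0
          · refine C2_step hcont ?_
            rw [sph_coe, hQ, pr_zero]
            exact hinf
          · exact absurd (C4_inj hQ hN) hcrit
    exact C3_sinks hcont h1

end Pool.Agent.H211.LR
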