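import Pool.Graph.R_seed8.H792R2.CE.Main
import Pool.Agent.H211.LD.Dir

/-! Rational maps: in a direction satisfying the transversality conditions, at most scales most
parameters are good. -/

set_option autoImplicit false

open Filter Topology Metric Set Polynomial MeasureTheory
open scoped OnePoint ENNReal

namespace Pool.Agent.H211.LR

open Pool.Agent.Helper114.Herman Pool.Agent.H762R2.Rt
open Pool.Agent.H792R2.CE Pool.Agent.H211.LD
open Pool.Agent.H792R2.Rt (principle_loc)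

/-- the times at which the derivative has grown -/
def GrR (d : ℕ) (P Q : ℂ[X]) (μ : ℝ) (n : ℕ) : Prop :=
  ∀ c : ℂ, (wr P Q).eval c = 0 → Att d P Q (c : OnePoint ℂ) ∨
      ∃ m ≤ n, μ ^ n ≤ ‖deriv ((rf P Q)^[m]) (rf P Q c)‖

/-- all critical points are attracted -/
def GoodR (d : ℕ) (P Q : ℂ[X]) : Prop :=
  IsCoprime P Q ∧ P.natDegree ≤ d ∧ Q.natDegree = d ∧ Att d P Q ∞ ∧
    ∀ z : ℂ, (wr P Q).eval z = 0 → Att d P Q (z : OnePoint ℂ)

/-- the core theorem -/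
theorem rcore_scales {P Q H G : ℂ[X]} {d : ℕ} (hd : 2 ≤ d) (hPQ : IsCoprime P Q)
    (hPd : P.natDegree ≤ d) (hQd : Q.natDegree = d) (hHd : H.natDegree ≤ d)
    (hGd : G.natDegree ≤ d) (hinf : Att d P Q ∞)
    (hnull : volume {z : ℂ | ¬ Att d P Q (z : OnePoint ℂ)} = 0) {μ : ℝ} (hμ : 1 < μ)
    (hexp : ∃ᶠ n : ℕ in atTop, GrR d P Q μ n)
    (hN₁0 : ∀ c : ℂ, (wr P Q).eval c = 0 → ¬ Att d P Q (c : OnePoint ℂ) →
      (wr H Q + wr P G).eval c ≠ 0)
    (hTr0 : ∀ c : ℂ, (wr P Q).eval c = 0 → ¬ Att d P Q (c : OnePoint ℂ) →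
      (wr P Q).rootMultiplicity c = 1 →
        (Summable fun j => (H * Q - P * G).eval ((rf P Q)^[j] c) /
          Q.eval ((rf P Q)^[j] c) ^ 2 / deriv ((rf P Q)^[j]) (rf P Q c)) ∧
        ∑' j, (H * Q - P * G).eval ((rf P Q)^[j] c) / Q.eval ((rf P Q)^[j] c) ^ 2 /
          deriv ((rf P Q)^[j]) (rf P Q c) ≠ 0) :
    ∃ q : ℕ, 0 < q ∧ ∀ N' ≥ q, ∀ ε η : ℝ, 0 < ε → 0 < η → ∃ N₀, ∀ n ≥ N₀, GrR d P Q μ n →
      (cnt (fun k => ¬ volume {s : ℂ | ‖s‖ < (1 / 2) ^ (k + 1) ∧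
          ¬ GoodR d (P + C s * H) (Q + C s * G)} ≤
        ENNReal.ofReal (ε * ((1 / 2) ^ (k + 1)) ^ 2)) (n / N') : ℝ) ≤ η * (n / N' : ℕ) := by
  classical
  have hd0 : 0 < d := by omega
  have hcont : Continuous (sph d P Q) := B1_continuous hPQ hPd hQd
  have hN : wr P Q ≠ 0 := wr_ne_zero hd0 hPQ hQd
  obtain ⟨Ks, hKs⟩ : ∃ Ks : Set ℂ, Ks = {z : ℂ | ¬ Att d P Q (z : OnePoint ℂ)} := ⟨_, rfl⟩
  have hKc : IsCompact Ks := by rw [hKs]; exact natt_compact hd0 hPQ hPd hQd hinf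
  have hstay : ∀ z ∈ Ks, ∀ n, (rf P Q)^[n] z ∈ Ks ∧ Q.eval ((rf P Q)^[n] z) ≠ 0 := by
    rw [hKs]; exact fun z hz n => natt_iter hcont hinf hz n
  have hKQ : ∀ z ∈ Ks, Q.eval z ≠ 0 := fun z hz => by
    have := (hstay z hz 0).2
    simpa using this
  have hmemK : ∀ z : ℂ, z ∈ Ks ↔ ¬ Att d P Q (z : OnePoint ℂ) := fun z => by rw [hKs]; rfl
  obtain ⟨bad, hbad⟩ : ∃ bad : Finset ℂ, ∀ c, c ∈ bad ↔ (wr P Q).eval c = 0 ∧ c ∈ Ks := by
    refine ⟨(wr P Q).roots.toFinset.filter (fun c => c ∈ Ks), fun c => ?_⟩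
    rw [Finset.mem_filter, Multiset.mem_toFinset, Polynomial.mem_roots hN]
    rfl
  obtain ⟨k, hk⟩ : ∃ k : ℂ → ℕ, k = fun c => (wr P Q).rootMultiplicity c := ⟨_, rfl⟩
  have hk' : ∀ c, (wr P Q).rootMultiplicity c = k c := fun c => by rw [hk]
  have hk1 : ∀ c ∈ bad, 1 ≤ k c := by
    intro c hc
    rw [← hk', Nat.one_le_iff_ne_zero]
    intro h0
    have h1 := (Polynomial.rootMultiplicity_pos hN).2 ((hbad c).1 hc).1
    omega
  have hexpb : ∃ᶠ n : ℕ in atTop, ∀ c ∈ bad,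
      ∃ m ≤ n, μ ^ n ≤ ‖deriv ((rf P Q)^[m]) (rf P Q c)‖ := by
    refine hexp.mono fun n hn c hc => ?_
    rcases hn c ((hbad c).1 hc).1 with h | h
    · exact absurd h ((hmemK c).1 ((hbad c).1 hc).2)
    · exact h
  have hne : ∀ c ∈ bad, ∀ j, deriv ((rf P Q)^[j]) (rf P Q c) ≠ 0 := by
    intro c hc j
    refine deriv_ne_of_expanding (fun j => ?_) hμ (hexpb.mono fun n hn => hn c hc) j
    have := (hstay c ((hbad c).1 hc).2 (j + 1)).2
    rwa [Function.iterate_succ_apply] at this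
  have hN₁ : ∀ c ∈ bad, (wr H Q + wr P G).eval c ≠ 0 := fun c hc =>
    hN₁0 c ((hbad c).1 hc).1 ((hmemK c).1 ((hbad c).1 hc).2)
  have hTr : ∀ c ∈ bad, (wr P Q).rootMultiplicity c = 1 →
        (Summable fun j => (H * Q - P * G).eval ((rf P Q)^[j] c) /
          Q.eval ((rf P Q)^[j] c) ^ 2 / deriv ((rf P Q)^[j]) (rf P Q c)) ∧
        ∑' j, (H * Q - P * G).eval ((rf P Q)^[j] c) / Q.eval ((rf P Q)^[j] c) ^ 2 /
          deriv ((rf P Q)^[j]) (rf P Q c) ≠ 0 := fun c hc =>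
    hTr0 c ((hbad c).1 hc).1 ((hmemK c).1 ((hbad c).1 hc).2)
  have hBr := fun c : {c // c ∈ bad} => A1_branch (H := H) (G := G) (k := k c) (hk1 c c.2)
    (hk' c) hN (hN₁ c c.2)
  choose τ t ρτ hρτ ht hτ0 hτd hτD hτcrit hτuniq using hBr
  set K : ℕ := ∏ c ∈ bad, k c with hKdef
  have hK : 1 ≤ K := Nat.one_le_iff_ne_zero.2
    (Finset.prod_ne_zero_iff.2 fun c hc => by have := hk1 c hc; omega)
  have hK0 : K ≠ 0 := by omega
  set l : ℂ → ℕ := fun c => K / k c with hl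
  have hlk : ∀ c ∈ bad, l c * k c = K := fun c hc =>
    Nat.div_mul_cancel (Finset.dvd_prod_of_mem k hc)
  have hl1 : ∀ c ∈ bad, 1 ≤ l c := by
    intro c hc
    by_contra h
    have h0 : l c = 0 := by omega
    have := hlk c hc
    rw [h0, zero_mul] at this
    omega
  have hB : ∀ (n : ℕ) (x : OnePoint ℂ), ContinuousAt (fun p : ℂ × OnePoint ℂ =>
      (sph d (P + C p.1 * H) (Q + C p.1 * G))^[n] p.2) (0, x) :=
    fun n x => B2_joint hd0 hPQ hPd hQd hHd hGd n x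
  have hpow : Tendsto (fun a : ℂ => a ^ K) (𝓝 0) (𝓝 0) := by
    have h1 : Tendsto (fun a : ℂ => a ^ K) (𝓝 0) (𝓝 (0 ^ K)) :=
      Continuous.tendsto (by fun_prop) 0
    rwa [zero_pow hK0] at h1
  have hQc : Continuous (fun p : ℂ × ℂ => (Q + C (p.1 ^ K) * G).eval p.2) := by
    simp only [Polynomial.eval_add, Polynomial.eval_mul, Polynomial.eval_C]
    have h1 : Continuous (fun p : ℂ × ℂ => Q.eval p.2) := Q.continuous.comp continuous_snd
    have h2 : Continuous (fun p : ℂ × ℂ => G.eval p.2) := G.continuous.comp continuous_snd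
    fun_prop
  have hQ00 : ∀ z : ℂ, (Q + C ((0 : ℂ) ^ K) * G).eval z = Q.eval z := by
    intro z
    simp [zero_pow hK0]
  -- the neighbourhood of the non-attracted set
  obtain ⟨δ₁, hδ₁, hδ₁s⟩ := hKc.exists_cthickening_subset_open
    (isOpen_ne.preimage Q.continuous : IsOpen ((fun z => Q.eval z) ⁻¹' {w | w ≠ 0})) hKQ
  have hK₁c : IsCompact (cthickening δ₁ Ks) := hKc.cthickening
  have hevK : ∀ᶠ a : ℂ in 𝓝 0, ∀ z ∈ cthickening δ₁ Ks, (Q + C (a ^ K) * G).eval z ≠ 0 := by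
    refine hK₁c.eventually_forall_of_forall_eventually fun z hz => ?_
    refine hQc.continuousAt.eventually_ne ?_
    change (Q + C ((0 : ℂ) ^ K) * G).eval z ≠ 0
    rw [hQ00]
    exact hδ₁s hz
  have hevC : ∀ᶠ a : ℂ in 𝓝 0, IsCoprime (P + C (a ^ K) * H) (Q + C (a ^ K) * G) ∧
      (P + C (a ^ K) * H).natDegree ≤ d ∧ (Q + C (a ^ K) * G).natDegree = d :=
    hpow.eventually (B3_coprime hd0 hPQ hPd hQd hHd hGd)
  have hevτ : ∀ c : {c // c ∈ bad}, ∃ η > 0, ∀ a b : ℂ, ‖a‖ < η → ‖b‖ < η →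
      (Q + C (a ^ K) * G).eval (τ c b) ≠ 0 := by
    intro c
    have h1 : ∀ᶠ p : ℂ × ℂ in 𝓝 (0, 0), (Q + C (p.1 ^ K) * G).eval (τ c p.2) ≠ 0 := by
      have h2 : ContinuousAt (fun p : ℂ × ℂ => (p.1, τ c p.2)) (0, 0) := by
        have h3 : ContinuousAt (τ c) 0 := (hτd c).continuousAt
        exact continuousAt_fst.prodMk (ContinuousAt.comp (g := τ c)
          (f := fun p : ℂ × ℂ => p.2) (x := ((0 : ℂ), (0 : ℂ))) h3 continuousAt_snd)
      have h4 : ContinuousAt (fun p : ℂ × ℂ => (Q + C (p.1 ^ K) * G).eval (τ c p.2)) (0, 0) :=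
        ContinuousAt.comp (g := fun p : ℂ × ℂ => (Q + C (p.1 ^ K) * G).eval p.2)
          (f := fun p : ℂ × ℂ => (p.1, τ c p.2)) (x := ((0 : ℂ), (0 : ℂ))) hQc.continuousAt h2
      refine h4.eventually_ne ?_
      change (Q + C ((0 : ℂ) ^ K) * G).eval (τ c 0) ≠ 0
      rw [hQ00, hτ0]
      exact hKQ _ ((hbad c).1 c.2).2
    obtain ⟨η, hη, hηs⟩ := Metric.mem_nhds_iff.1 h1
    refine ⟨η, hη, fun a b ha hb => ?_⟩
    have h5 : ((a, b) : ℂ × ℂ) ∈ ball ((0 : ℂ), (0 : ℂ)) η := by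
      rw [mem_ball, Prod.dist_eq, max_lt_iff]
      exact ⟨by simpa using ha, by simpa using hb⟩
    exact hηs h5
  choose ητ hητ hητs using hevτ
  obtain ⟨η₀, hη₀, hη₀s⟩ := Metric.mem_nhds_iff.1 (hevK.and hevC)
  obtain ⟨ρ₁, hρ₁, hρ₁1, hρ₁τ, hρ₁η⟩ : ∃ ρ₁ : ℝ, 0 < ρ₁ ∧ ρ₁ ≤ 1 ∧
      (∀ c, ρ₁ ≤ ρτ c ∧ ρ₁ ≤ ητ c) ∧ ρ₁ ≤ η₀ := by
    have h1 : ∀ x : ℝ, 0 < x → ∀ᶠ y : ℝ in 𝓝[>] 0, y ≤ x := by
      intro x hx
      have h2 : ∀ᶠ y : ℝ in 𝓝 0, y < x := Iio_mem_nhds hx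
      filter_upwards [h2.filter_mono nhdsWithin_le_nhds] with y hy using hy.le
    have h3 : ∀ᶠ y : ℝ in 𝓝[>] 0, ∀ c, y ≤ ρτ c ∧ y ≤ ητ c := by
      rw [Filter.eventually_all]
      exact fun c => (h1 _ (hρτ c)).and (h1 _ (hητ c))
    obtain ⟨y, h4, h5, h6, h7⟩ := ((h1 1 one_pos).and (h3.and ((h1 η₀ hη₀).and
      self_mem_nhdsWithin))).exists
    exact ⟨y, h7, h4, h5, h6⟩
  have hsm0 : ∀ a : ℂ, ‖a‖ < ρ₁ → (∀ z ∈ cthickening δ₁ Ks, (Q + C (a ^ K) * G).eval z ≠ 0) ∧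
      IsCoprime (P + C (a ^ K) * H) (Q + C (a ^ K) * G) ∧
      (P + C (a ^ K) * H).natDegree ≤ d ∧ (Q + C (a ^ K) * G).natDegree = d := by
    intro a ha
    exact hη₀s (mem_ball_zero_iff.2 (lt_of_lt_of_le ha hρ₁η))
  obtain ⟨M, hM0, hM⟩ : ∃ M : ℝ, 0 ≤ M ∧ ∀ z ∈ cthickening δ₁ Ks, ‖z‖ ≤ M := by
    obtain ⟨M, hM⟩ := hK₁c.isBounded.exists_norm_le
    exact ⟨max M 0, le_max_right _ _, fun z hz => (hM z hz).trans (le_max_left _ _)⟩
  -- the marked points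
  let ι := Σ c : {c // c ∈ bad}, {ω // ω ∈ Polynomial.nthRootsFinset (k c) (1 : ℂ)}
  let ζ : ι → ℂ → ℂ := fun i a => τ i.1 ((i.2 : ℂ) * a ^ (l i.1))
  have hω : ∀ i : ι, (i.2 : ℂ) ^ (k i.1) = 1 := fun i =>
    (Polynomial.mem_nthRootsFinset (by have := hk1 i.1 i.1.2; omega) _).1 i.2.2
  have hωn : ∀ i : ι, ‖(i.2 : ℂ)‖ = 1 := by
    intro i
    have h1 : ‖(i.2 : ℂ)‖ ^ (k i.1) = 1 := by rw [← norm_pow, hω i, norm_one]
    have h2 := hk1 i.1 i.1.2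
    exact (pow_eq_one_iff_of_nonneg (norm_nonneg _) (by omega)).1 h1
  have hsmall : ∀ (i : ι) (a : ℂ), ‖a‖ < ρ₁ → ‖(i.2 : ℂ) * a ^ (l i.1)‖ < ρ₁ := by
    intro i a ha
    rw [norm_mul, hωn i, one_mul, norm_pow]
    have h1 : ‖a‖ ^ (l i.1) ≤ ‖a‖ ^ 1 :=
      pow_le_pow_of_le_one (norm_nonneg _) (ha.le.trans hρ₁1) (hl1 i.1 i.1.2)
    rw [pow_one] at h1
    exact lt_of_le_of_lt h1 ha
  have hζd : ∀ i, ∀ a, ‖a‖ < ρ₁ → DifferentiableAt ℂ (ζ i) a := by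
    intro i a ha
    have h3 : DifferentiableAt ℂ (fun a : ℂ => (i.2 : ℂ) * a ^ (l i.1)) a := by fun_prop
    exact DifferentiableAt.comp (g := τ i.1) (f := fun a : ℂ => (i.2 : ℂ) * a ^ (l i.1)) a
      (hτD i.1 _ (lt_of_lt_of_le (hsmall i a ha) (hρ₁τ i.1).1)) h3
  have hf0 : fam P Q H G K 0 = rf P Q := fam_zero hK
  have hζ0 : ∀ i : ι, ζ i 0 = (i.1 : ℂ) := by
    intro i
    have := hl1 i.1 i.1.2
    simp only [ζ, zero_pow (show l i.1 ≠ 0 by omega), mul_zero, hτ0]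
  have hb : ∀ i n, (fam P Q H G K 0)^[n] (ζ i 0) ∈ Ks := by
    intro i n
    rw [hf0, hζ0]
    exact (hstay _ ((hbad _).1 i.1.2).2 n).1
  -- growth for every marked point
  have hgi : ∀ i : ι, ∃ (Di : ℕ) (Ci : ℝ), 0 ≤ Ci ∧ ∀ᶠ n : ℕ in atTop,
      (∀ c ∈ bad, ∃ m ≤ n, μ ^ n ≤ ‖deriv ((rf P Q)^[m]) (rf P Q c)‖) → ∀ r, 0 < r → r < ρ₁ →
      (∀ m ≤ n + 1, ∀ a, ‖a‖ ≤ r → (fam P Q H G K a)^[m] (ζ i a) ∈ cthickening δ₁ Ks) →
        μ ^ (n + 1) * r ^ Di ≤ Ci := by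
    intro i
    have hcb := (hbad _).1 i.1.2
    by_cases hki : k i.1 = 1
    · -- simple
      have h1 := hTr i.1 i.1.2 (by rw [hk', hki])
      obtain ⟨C₀, n₀, hC₀, hgr⟩ := simple_growth (P := P) (Q := Q) (H := H) (G := G) hK
        (hτ0 i.1) (hτd i.1) (hτD i.1) hcb.1 (fun j => (hstay _ hcb.2 j).2) (hne _ i.1.2)
        h1.1 h1.2 hM0 hM hρ₁1 (hρ₁τ i.1).1 (fun a z ha hz => (hsm0 a ha).1 z hz)
      refine ⟨K, μ * C₀, mul_nonneg (by linarith) hC₀, ?_⟩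
      filter_upwards [late_of_expanding
        (g := fun m => ‖deriv ((rf P Q)^[m]) (rf P Q i.1)‖) hμ n₀] with n hn hall r hr hrρ hbd
      obtain ⟨m, hmn, hm⟩ := hall _ i.1.2
      have hmn₀ := hn m hm
      have hω1 : (i.2 : ℂ) = 1 := by
        have e1 : ∀ (x : ℂ) (n : ℕ), x ^ n = 1 → n = 1 → x = 1 := by
          intro x n hx hn
          rwa [hn, pow_one] at hx
        exact e1 _ _ (hω i) hki
      have hlK : l i.1 = K := by
        have := hlk _ i.1.2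
        rwa [hki, mul_one] at this
      have h2 := hgr m r hmn₀ hr hrρ (fun j hj a ha => by
        have h3 := hbd j (by omega) a ha
        simp only [ζ, hω1, hlK, one_mul] at h3
        exact h3)
      calc μ ^ (n + 1) * r ^ K = μ * (μ ^ n * r ^ K) := by rw [pow_succ]; ring
        _ ≤ μ * (‖deriv ((rf P Q)^[m]) (rf P Q i.1)‖ * r ^ K) := by
            apply mul_le_mul_of_nonneg_left _ (by linarith)
            exact mul_le_mul_of_nonneg_right hm (by positivity)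
        _ ≤ μ * C₀ := mul_le_mul_of_nonneg_left h2 (by linarith)
    · -- multiple
      have hk2 : 2 ≤ k i.1 := by
        have := hk1 _ i.1.2
        omega
      obtain ⟨C₀, hC₀, hgr⟩ := multi_growth (P := P) (Q := Q) (H := H) (G := G) hk2
        (hl1 _ i.1.2) (hlk _ i.1.2) (hρτ i.1) (ht i.1) (hτ0 i.1) (hτd i.1) (hτD i.1)
        (hτcrit i.1) (hKQ _ hcb.2) (hN₁ _ i.1.2) hM0 hM hρ₁1 (hρ₁τ i.1).1
        (fun a z ha hz => (hsm0 a ha).1 z hz)
        (fun a b ha hb' => hητs i.1 a b (lt_of_lt_of_le ha (hρ₁τ i.1).2)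
          (lt_of_lt_of_le hb' (hρ₁τ i.1).2))
      refine ⟨l i.1 * (k i.1 + 1), μ * C₀, mul_nonneg (by linarith) hC₀, ?_⟩
      refine Eventually.of_forall fun n hall r hr hrρ hbd => ?_
      obtain ⟨m, hmn, hm⟩ := hall _ i.1.2
      have h2 := hgr m r i.2 hr hrρ (hω i) (fun j hj a ha => hbd j (by omega) a ha)
      calc μ ^ (n + 1) * r ^ (l i.1 * (k i.1 + 1))
          = μ * (μ ^ n * r ^ (l i.1 * (k i.1 + 1))) := by rw [pow_succ]; ring
        _ ≤ μ * (‖deriv ((rf P Q)^[m]) (rf P Q i.1)‖ * r ^ (l i.1 * (k i.1 + 1))) := by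
            apply mul_le_mul_of_nonneg_left _ (by linarith)
            exact mul_le_mul_of_nonneg_right hm (by positivity)
        _ ≤ μ * C₀ := mul_le_mul_of_nonneg_left h2 (by linarith)
  choose Di Ci hCi hgi' using hgi
  have hGrb : ∀ n, GrR d P Q μ n → ∀ c ∈ bad,
      ∃ m ≤ n, μ ^ n ≤ ‖deriv ((rf P Q)^[m]) (rf P Q c)‖ := by
    intro n hn c hc
    rcases hn c ((hbad c).1 hc).1 with h | h
    · exact absurd h ((hmemK c).1 ((hbad c).1 hc).2)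
    · exact h
  have hgrow : ∀ᶠ n : ℕ in atTop, (∃ n', n = n' + 1 ∧ GrR d P Q μ n') → ∀ i, ∀ r, 0 < r →
      r < ρ₁ →
      (∀ m ≤ n, ∀ a, ‖a‖ ≤ r → (fam P Q H G K a)^[m] (ζ i a) ∈ cthickening δ₁ Ks) →
      μ ^ n * r ^ (∑ i, Di i) ≤ ∑ i, Ci i := by
    obtain ⟨N, hN'⟩ := Filter.eventually_atTop.1 (Filter.eventually_all.2 hgi')
    rw [Filter.eventually_atTop]
    refine ⟨N + 1, ?_⟩
    rintro n hn ⟨n', rfl, hgood⟩
    intro i r hr hr1 hbd
    have h2 := hN' n' (by omega) i (hGrb n' hgood) r hr hr1 hbd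
    have h3 : Di i ≤ ∑ i, Di i := Finset.single_le_sum (f := Di) (fun _ _ => Nat.zero_le _)
      (Finset.mem_univ i)
    have h4 : Ci i ≤ ∑ i, Ci i := Finset.single_le_sum (f := Ci) (fun i _ => hCi i)
      (Finset.mem_univ i)
    calc μ ^ (n' + 1) * r ^ (∑ i, Di i) ≤ μ ^ (n' + 1) * r ^ (Di i) :=
          mul_le_mul_of_nonneg_left (pow_le_pow_of_le_one hr.le (hr1.le.trans hρ₁1) h3)
            (pow_nonneg (by linarith) _)
      _ ≤ Ci i := h2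
      _ ≤ _ := h4
  -- the escape principle
  have hz0 : ∀ z : ℂ, Att d (P + C ((0 : ℂ) ^ K) * H) (Q + C ((0 : ℂ) ^ K) * G)
      (z : OnePoint ℂ) ↔ Att d P Q (z : OnePoint ℂ) := by
    intro z
    rw [zero_pow hK0]
    exact att_zero_iff
  -- the scale of the parameter `a`
  obtain ⟨θ, hθ0, hθ1, hθK⟩ : ∃ θ : ℝ, 0 < θ ∧ θ < 1 ∧ θ ^ K = 1 / 2 := by
    refine ⟨(1 / 2 : ℝ) ^ ((1 : ℝ) / K), by positivity, ?_, ?_⟩
    · apply Real.rpow_lt_one (by norm_num) (by norm_num)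
      positivity
    · rw [← Real.rpow_natCast, ← Real.rpow_mul (by norm_num), one_div_mul_cancel (by
        exact_mod_cast hK0), Real.rpow_one]
  obtain ⟨q, hq0, hq⟩ := most_scales (f := fam P Q H G K)
    (W := {p : ℂ × ℂ | ‖p.1‖ < ρ₁ ∧ (Q + C (p.1 ^ K) * G).eval p.2 ≠ 0})
    (fun p hp => fam_contDiffAt p hp.2) hKc hρ₁ hδ₁
    (fun a z ha hz => ⟨ha, (hsm0 a ha).1 z hz⟩)
    (fun a z => Att d (P + C (a ^ K) * H) (Q + C (a ^ K) * G) (z : OnePoint ℂ))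
    (by
      rintro a z ⟨ha, hz⟩ h
      obtain ⟨-, h1, h2, h3⟩ := hsm0 a ha
      apply C2_step (B1_continuous h1 h2 h3)
      rw [sph_coe_of_ne hz]
      exact h)
    (by
      intro z hz
      have h1 := att_stable_pow (H := H) (G := G) (K := K) hK hB ((hz0 z).1 hz)
      have h2 : Tendsto (fun p : ℂ × ℂ => ((p.1, (p.2 : OnePoint ℂ)) : ℂ × OnePoint ℂ))
          (𝓝 (0, z)) (𝓝 (0, (z : OnePoint ℂ))) := by
        have : Continuous (fun p : ℂ × ℂ => ((p.1, (p.2 : OnePoint ℂ)) : ℂ × OnePoint ℂ)) :=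
          continuous_fst.prodMk (OnePoint.continuous_coe.comp continuous_snd)
        exact this.tendsto (0, z)
      exact h2.eventually h1)
    (by
      have h1 : {z : ℂ | ¬ Att d (P + C ((0 : ℂ) ^ K) * H) (Q + C ((0 : ℂ) ^ K) * G)
          (z : OnePoint ℂ)} = {z : ℂ | ¬ Att d P Q (z : OnePoint ℂ)} := by
        ext z
        exact not_congr (hz0 z)
      rw [h1]
      exact hnull)
    ζ hζd hb hμ _ _ (fun n => ∃ n', n = n' + 1 ∧ GrR d P Q μ n')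
    (by
      rw [Filter.frequently_atTop] at hexp ⊢
      intro N
      obtain ⟨n, hn, hg⟩ := hexp N
      exact ⟨n + 1, by omega, n, rfl, hg⟩)
    hgrow hθ0 hθ1
  -- every point is fine for small parameters
  have hall : ∀ᶠ a : ℂ in 𝓝 0, ∀ x ∈ (Set.univ : Set (OnePoint ℂ)),
      Att d (P + C (a ^ K) * H) (Q + C (a ^ K) * G) x ∨
      (∃ z : ℂ, x = (z : OnePoint ℂ) ∧
        (wr (P + C (a ^ K) * H) (Q + C (a ^ K) * G)).eval z ≠ 0) ∨
      ∃ i : ι, x = ((ζ i a : ℂ) : OnePoint ℂ) := by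
    refine isCompact_univ.eventually_forall_of_forall_eventually fun x _ => ?_
    by_cases hx : Att d P Q x
    · filter_upwards [att_stable_pow (H := H) (G := G) (K := K) hK hB hx] with p hp
      exact Or.inl hp
    · induction x using OnePoint.rec with
      | infty => exact absurd hinf hx
      | coe z =>
        have hzK : z ∈ Ks := (hmemK z).2 hx
        have hQz := hKQ z hzK
        -- near `(0, z)` everything is finite
        have hemb : Topology.IsOpenEmbedding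
            (fun p : ℂ × ℂ => ((p.1, (p.2 : OnePoint ℂ)) : ℂ × OnePoint ℂ)) :=
          Topology.IsOpenEmbedding.id.prodMap OnePoint.isOpenEmbedding_coe
        have hmap : 𝓝 (((0 : ℂ), (z : OnePoint ℂ)) : ℂ × OnePoint ℂ) =
            Filter.map (fun p : ℂ × ℂ => ((p.1, (p.2 : OnePoint ℂ)) : ℂ × OnePoint ℂ))
              (𝓝 (0, z)) := (hemb.map_nhds_eq (0, z)).symm
        rw [hmap, Filter.eventually_map]
        have hQe : ∀ᶠ p : ℂ × ℂ in 𝓝 (0, z), (Q + C (p.1 ^ K) * G).eval p.2 ≠ 0 := by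
          refine hQc.continuousAt.eventually_ne ?_
          change (Q + C ((0 : ℂ) ^ K) * G).eval z ≠ 0
          rw [hQ00]
          exact hQz
        by_cases hNz : (wr P Q).eval z = 0
        · have hzb : z ∈ bad := (hbad z).2 ⟨hNz, hzK⟩
          have hnear : ∀ᶠ p : ℂ × ℂ in 𝓝 (0, z), ‖p.2 - z‖ < ρτ ⟨z, hzb⟩ ∧
              ‖p.1 ^ (l z)‖ < ρτ ⟨z, hzb⟩ := by
            refine Eventually.and ?_ ?_
            · have h1 : Continuous (fun p : ℂ × ℂ => ‖p.2 - z‖) := by fun_prop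
              have h2 : ‖(((0 : ℂ), z) : ℂ × ℂ).2 - z‖ < ρτ ⟨z, hzb⟩ := by
                simpa using hρτ ⟨z, hzb⟩
              exact (h1.tendsto ((0 : ℂ), z)).eventually (Iio_mem_nhds h2)
            · have h1 : Continuous (fun p : ℂ × ℂ => ‖p.1 ^ (l z)‖) := by fun_prop
              have h2 : ‖(((0 : ℂ), z) : ℂ × ℂ).1 ^ (l z)‖ < ρτ ⟨z, hzb⟩ := by
                have := hl1 z hzb
                simpa [zero_pow (show l z ≠ 0 by omega)] using hρτ ⟨z, hzb⟩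
              exact (h1.tendsto ((0 : ℂ), z)).eventually (Iio_mem_nhds h2)
          filter_upwards [hQe, hnear] with p hp hp2
          by_cases hw : (wr (P + C (p.1 ^ K) * H) (Q + C (p.1 ^ K) * G)).eval p.2 = 0
          · right; right
            have e1 : (p.1 ^ (l z)) ^ (k z) = p.1 ^ K := by rw [← pow_mul, hlk z hzb]
            obtain ⟨ω, hω1, hω2⟩ := hτuniq ⟨z, hzb⟩ p.2 (p.1 ^ (l z)) hp2.1 hp2.2 (by
              change (wr (P + C ((p.1 ^ (l z)) ^ (k z)) * H)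
                (Q + C ((p.1 ^ (l z)) ^ (k z)) * G)).eval p.2 = 0
              rw [e1]
              exact hw)
            have hkz : 0 < k z := by have := hk1 z hzb; omega
            refine ⟨⟨⟨z, hzb⟩, ⟨ω, (Polynomial.mem_nthRootsFinset hkz _).2 hω1⟩⟩, ?_⟩
            change ((p.2 : ℂ) : OnePoint ℂ) = ((τ ⟨z, hzb⟩ (ω * p.1 ^ (l z)) : ℂ) : OnePoint ℂ)
            rw [← hω2]
          · right; left
            exact ⟨p.2, rfl, hw⟩
        · have hNe : ∀ᶠ p : ℂ × ℂ in 𝓝 (0, z),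
              (wr (P + C (p.1 ^ K) * H) (Q + C (p.1 ^ K) * G)).eval p.2 ≠ 0 := by
            have h1 : Continuous (fun p : ℂ × ℂ =>
                (wr (P + C (p.1 ^ K) * H) (Q + C (p.1 ^ K) * G)).eval p.2) := by
              simp only [wr_family, Polynomial.eval_add, Polynomial.eval_mul, Polynomial.eval_C]
              have c1 : Continuous (fun p : ℂ × ℂ => (wr P Q).eval p.2) :=
                (wr P Q).continuous.comp continuous_snd
              have c2 : Continuous (fun p : ℂ × ℂ => (wr H Q).eval p.2) :=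
                (wr H Q).continuous.comp continuous_snd
              have c3 : Continuous (fun p : ℂ × ℂ => (wr P G).eval p.2) :=
                (wr P G).continuous.comp continuous_snd
              have c4 : Continuous (fun p : ℂ × ℂ => (wr H G).eval p.2) :=
                (wr H G).continuous.comp continuous_snd
              fun_prop
            refine h1.continuousAt.eventually_ne ?_
            change (wr (P + C ((0 : ℂ) ^ K) * H) (Q + C ((0 : ℂ) ^ K) * G)).eval z ≠ 0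
            rw [zero_pow hK0]
            simpa using hNz
          filter_upwards [hQe, hNe] with p hp hp2
          right; left
          exact ⟨p.2, rfl, hp2⟩
  have hinfev : ∀ᶠ a : ℂ in 𝓝 0, Att d (P + C (a ^ K) * H) (Q + C (a ^ K) * G) ∞ := by
    have h1 := att_stable_pow (H := H) (G := G) (K := K) hK hB hinf
    have h2 : Tendsto (fun a : ℂ => ((a, ∞) : ℂ × OnePoint ℂ)) (𝓝 0) (𝓝 (0, ∞)) := by
      have : Continuous (fun a : ℂ => ((a, ∞) : ℂ × OnePoint ℂ)) := by fun_prop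
      exact this.tendsto 0
    exact h2.eventually h1
  obtain ⟨δ, hδ, hδs⟩ := Metric.mem_nhds_iff.1 (hall.and hinfev)
  have hKR : (0 : ℝ) < K := by exact_mod_cast hK
  -- the bad parameters at one scale
  obtain ⟨k₀, hone⟩ : ∃ k₀ : ℕ, ∀ k ≥ k₀, ∀ ε : ℝ, 0 < ε →
      volume {a : ℂ | ‖a‖ ≤ θ ^ (k + 1) ∧ ∃ i, ¬ Att d (P + C (a ^ K) * H) (Q + C (a ^ K) * G)
          ((ζ i a : ℂ) : OnePoint ℂ)} ≤
        ENNReal.ofReal (ε / K ^ 2 * (θ ^ (k + 1)) ^ 2) →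
      volume {s : ℂ | ‖s‖ < (1 / 2) ^ (k + 1) ∧
          ¬ GoodR d (P + C s * H) (Q + C s * G)} ≤
        ENNReal.ofReal (ε * ((1 / 2) ^ (k + 1)) ^ 2) := by
    have h1 : ∀ᶠ k : ℕ in atTop, θ ^ k < min δ ρ₁ :=
      (tendsto_pow_atTop_nhds_zero_of_lt_one hθ0.le hθ1).eventually
        (Iio_mem_nhds (lt_min hδ hρ₁))
    obtain ⟨k₀, hk₀⟩ := Filter.eventually_atTop.1 h1
    refine ⟨k₀, fun k hkk ε hε hvol => ?_⟩
    have hk := hk₀ k hkk
    set r : ℝ := θ ^ (k + 1) with hr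
    have hr0 : 0 < r := pow_pos hθ0 _
    have hrk : r < min δ ρ₁ :=
      lt_of_le_of_lt (pow_le_pow_of_le_one hθ0.le hθ1.le (Nat.le_succ k)) hk
    have hrK : r ^ K = (1 / 2) ^ (k + 1) := by
      rw [hr, ← pow_mul, Nat.mul_comm, pow_mul, hθK]
    have hsub : {s : ℂ | ‖s‖ < (1 / 2) ^ (k + 1) ∧
          ¬ GoodR d (P + C s * H) (Q + C s * G)} ⊆
        (fun a : ℂ => a ^ K) '' {a : ℂ | ‖a‖ ≤ r ∧ ∃ i, ¬ Att d (P + C (a ^ K) * H)
          (Q + C (a ^ K) * G) ((ζ i a : ℂ) : OnePoint ℂ)} := by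
      rintro s ⟨hs, hGs⟩
      obtain ⟨a, ha⟩ := IsAlgClosed.exists_pow_nat_eq s hK
      have har : ‖a‖ < r := by
        rw [← ha, norm_pow, ← hrK] at hs
        exact lt_of_pow_lt_pow_left₀ K hr0.le hs
      refine ⟨a, ⟨har.le, ?_⟩, ha⟩
      rw [← ha] at hGs
      have haδ : ‖a‖ < δ := har.trans (hrk.trans_le (min_le_left _ _))
      have haρ : ‖a‖ < ρ₁ := har.trans (hrk.trans_le (min_le_right _ _))
      obtain ⟨ha1, ha2⟩ := hδs (mem_ball_zero_iff.2 haδ)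
      by_contra hcon
      push Not at hcon
      apply hGs
      obtain ⟨-, h1, h2, h3⟩ := hsm0 a haρ
      refine ⟨h1, h2, h3, ha2, fun z hz => ?_⟩
      rcases ha1 (z : OnePoint ℂ) (Set.mem_univ _) with h | ⟨z', hz', h⟩ | ⟨i, h⟩
      · exact h
      · rw [OnePoint.coe_injective hz'] at hz
        exact absurd hz h
      · rw [h]
        exact hcon i
    calc _ ≤ volume ((fun a : ℂ => a ^ K) '' {a : ℂ | ‖a‖ ≤ r ∧
          ∃ i, ¬ Att d (P + C (a ^ K) * H) (Q + C (a ^ K) * G) ((ζ i a : ℂ) : OnePoint ℂ)}) :=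
          measure_mono hsub
      _ ≤ ENNReal.ofReal (((K : ℝ) * r ^ (K - 1)) ^ 2) *
          volume {a : ℂ | ‖a‖ ≤ r ∧ ∃ i, ¬ Att d (P + C (a ^ K) * H) (Q + C (a ^ K) * G)
            ((ζ i a : ℂ) : OnePoint ℂ)} :=
          pow_image hr0.le fun a ha => mem_closedBall_zero_iff.2 ha.1
      _ ≤ ENNReal.ofReal (((K : ℝ) * r ^ (K - 1)) ^ 2) *
          ENNReal.ofReal (ε / K ^ 2 * r ^ 2) := by gcongr
      _ = ENNReal.ofReal (ε * ((1 / 2) ^ (k + 1)) ^ 2) := by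
          rw [← ENNReal.ofReal_mul (by positivity)]
          congr 1
          have e1 : r ^ K = r ^ (K - 1) * r := by
            rw [← pow_succ]
            congr 1
            omega
          rw [← hrK, e1]
          field_simp
  refine ⟨q, hq0, ?_⟩
  intro N' hN' ε η hε hη
  have hN'0 : 0 < N' := lt_of_lt_of_le hq0 hN'
  obtain ⟨N₀, hN₀⟩ := hq N' hN' (ε / K ^ 2) (η / 4) (by positivity) (by positivity)
  obtain ⟨N₁, hN₁'⟩ := exists_nat_gt ((4 * k₀ : ℝ) / η)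
  refine ⟨max N₀ (N' * (N₁ + 1)), fun n hn hGn => ?_⟩
  have h1 := hN₀ (n + 1) ((le_max_left _ _).trans (hn.trans (Nat.le_succ n))) ⟨n, rfl, hGn⟩
  set M' := n / N' with hM'
  have hMlo : N₁ + 1 ≤ M' := by
    rw [hM', Nat.le_div_iff_mul_le hN'0, Nat.mul_comm]
    exact (le_max_right _ _).trans hn
  have hM1 : (n + 1) / N' ≤ M' + 1 := by
    have e2 : (n + 1) / N' ≤ (n + N') / N' := Nat.div_le_div_right (by omega)
    rwa [Nat.add_div_right n hN'0] at e2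
  have hM2 : M' ≤ (n + 1) / N' := Nat.div_le_div_right (by omega)
  have h2 : cnt (fun k => ¬ volume {s : ℂ | ‖s‖ < (1 / 2) ^ (k + 1) ∧
          ¬ GoodR d (P + C s * H) (Q + C s * G)} ≤
        ENNReal.ofReal (ε * ((1 / 2) ^ (k + 1)) ^ 2)) M' ≤ k₀ +
      cnt (fun j => ¬ volume {a : ℂ | ‖a‖ ≤ θ ^ (j + 1) ∧ ∃ i, ¬ Att d (P + C (a ^ K) * H)
          (Q + C (a ^ K) * G) ((ζ i a : ℂ) : OnePoint ℂ)} ≤
        ENNReal.ofReal (ε / K ^ 2 * (θ ^ (j + 1)) ^ 2)) ((n + 1) / N') := by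
    refine (cnt_mono (q := fun k => k < k₀ ∨
      ¬ volume {a : ℂ | ‖a‖ ≤ θ ^ (k + 1) ∧ ∃ i, ¬ Att d (P + C (a ^ K) * H)
          (Q + C (a ^ K) * G) ((ζ i a : ℂ) : OnePoint ℂ)} ≤
        ENNReal.ofReal (ε / K ^ 2 * (θ ^ (k + 1)) ^ 2)) ?_ M').trans ((cnt_or _ _ _).trans ?_)
    · intro k hk
      by_contra hcon
      push Not at hcon
      exact hk (hone k hcon.1 ε hε hcon.2)
    · refine add_le_add (cnt_late (fun k hk h => by omega) _) ?_
      exact cnt_mono_right _ hM2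
  have h4 : (cnt (fun k => ¬ volume {s : ℂ | ‖s‖ < (1 / 2) ^ (k + 1) ∧
          ¬ GoodR d (P + C s * H) (Q + C s * G)} ≤
        ENNReal.ofReal (ε * ((1 / 2) ^ (k + 1)) ^ 2)) M' : ℝ) ≤ k₀ +
      cnt (fun j => ¬ volume {a : ℂ | ‖a‖ ≤ θ ^ (j + 1) ∧ ∃ i, ¬ Att d (P + C (a ^ K) * H)
          (Q + C (a ^ K) * G) ((ζ i a : ℂ) : OnePoint ℂ)} ≤
        ENNReal.ofReal (ε / K ^ 2 * (θ ^ (j + 1)) ^ 2)) ((n + 1) / N') := by
    exact_mod_cast h2
  have h3 : (cnt (fun k => ¬ volume {s : ℂ | ‖s‖ < (1 / 2) ^ (k + 1) ∧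
          ¬ GoodR d (P + C s * H) (Q + C s * G)} ≤
        ENNReal.ofReal (ε * ((1 / 2) ^ (k + 1)) ^ 2)) M' : ℝ) ≤ k₀ +
      η / 4 * ((n + 1) / N' : ℕ) := by
    linarith
  have h5 : (((n + 1) / N' : ℕ) : ℝ) ≤ M' + 1 := by exact_mod_cast hM1
  have h6 : ((N₁ : ℕ) : ℝ) + 1 ≤ M' := by exact_mod_cast hMlo
  rw [div_lt_iff₀ hη] at hN₁'
  have h7 : (0 : ℝ) ≤ N₁ := Nat.cast_nonneg _
  nlinarith

end Pool.Agent.H211.LR
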