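import Pool.Agent.H211.LR.Stab
import Pool.Agent.H211.LR.Core

/-! The good rational maps form an open set. -/

set_option autoImplicit false

open Filter Topology Metric Set Polynomial MeasureTheory
open scoped OnePoint

namespace Pool.Agent.H211.LR

open Pool.Agent.Helper114.Herman
open Pool.Agent.H792R2.CE Pool.Agent.H211.LD

theorem QQ_top {d : ℕ} (x : EE d) : (QQ x).coeff d = x (1, Fin.last d) := by
  unfold QQ
  rw [pol_coeff, dif_pos (Nat.lt_succ_self d)]
  rfl

theorem QQ_deg_iff {d : ℕ} (hd : 0 < d) (x : EE d) :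
    (QQ x).natDegree = d ↔ x (1, Fin.last d) ≠ 0 := by
  rw [← QQ_top x]
  constructor
  · intro h h0
    have h1 : (QQ x).leadingCoeff = 0 := by
      rw [Polynomial.leadingCoeff, h, h0]
    rw [Polynomial.leadingCoeff_eq_zero] at h1
    rw [h1, natDegree_zero] at h
    omega
  · intro h
    exact le_antisymm (QQ_deg x) (Polynomial.le_natDegree_of_ne_zero h)

theorem coprime_iff {P Q : ℂ[X]} : IsCoprime P Q ↔ ∀ z : ℂ, P.eval z ≠ 0 ∨ Q.eval z ≠ 0 := by
  have h := Polynomial.isCoprime_iff_aeval_ne_zero_of_isAlgClosed (k := ℂ) ℂ P Q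
  simp only [Polynomial.coe_aeval_eq_eval] at h
  exact h

/-- the derivative of the evaluation is jointly continuous -/
theorem dev_cont {d : ℕ} (j : Fin 2) :
    Continuous (fun p : EE d × ℂ => (derivative (pol fun i => p.1 (j, i))).eval p.2) := by
  have h1 : ∀ (x : EE d), derivative (pol fun i => x (j, i)) =
      ∑ i : Fin (d + 1), C (x (j, i)) * derivative (X ^ (i : ℕ)) := by
    intro x
    unfold pol
    rw [derivative_sum]
    refine Finset.sum_congr rfl fun i _ => ?_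
    rw [derivative_C_mul]
  simp only [h1, eval_finsetSum, eval_mul, eval_C]
  refine continuous_finsetSum _ fun i _ => ?_
  have h2 : Continuous (fun p : EE d × ℂ => p.1 (j, i)) := (continuous_apply _).comp continuous_fst
  exact h2.mul ((derivative (X ^ (i : ℕ) : ℂ[X])).continuous.comp continuous_snd)

theorem wrE_cont {d : ℕ} :
    Continuous (fun p : EE d × ℂ => (wr (PP p.1) (QQ p.1)).eval p.2) := by
  unfold wr
  simp only [eval_sub, eval_mul]
  exact ((dev_cont 0).mul QQ_cd.continuous).sub (PP_cd.continuous.mul (dev_cont 1))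

/-- near the point at infinity the denominator does not vanish -/
theorem den_infty {d : ℕ} {x₀ : EE d} (hx : x₀ (1, Fin.last d) ≠ 0) :
    ∀ᶠ p : EE d × OnePoint ℂ in 𝓝 (x₀, ∞), ∀ z : ℂ, p.2 = (z : OnePoint ℂ) →
      (QQ p.1).eval z ≠ 0 := by
  have h1 : Continuous (fun p : EE d × ℂ => hom (QQ p.1) d 1 p.2) :=
    hom_cont (a := fun _ => 1) (b := fun w => w) 1 continuous_const continuous_id
  have h2 : hom (QQ x₀) d 1 0 ≠ 0 := by
    rw [hom_zero, QQ_top]
    simpa using hx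
  have h3 : ∀ᶠ p : EE d × ℂ in 𝓝 (x₀, 0), hom (QQ p.1) d 1 p.2 ≠ 0 :=
    h1.continuousAt.eventually_ne h2
  have he : IsOpenEmbedding (fun w : ℂ => sinv (w : OnePoint ℂ)) :=
    sinvHomeo.isOpenEmbedding.comp OnePoint.isOpenEmbedding_coe
  have h4 : IsOpenEmbedding (Prod.map (id : EE d → EE d) (fun w : ℂ => sinv (w : OnePoint ℂ))) :=
    IsOpenEmbedding.id.prodMap he
  have h5 : Prod.map (id : EE d → EE d) (fun w : ℂ => sinv (w : OnePoint ℂ)) (x₀, 0) =
      (x₀, ∞) := by
    simp [sinv_zero]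
  rw [← h5, ← h4.map_nhds_eq, Filter.eventually_map]
  filter_upwards [h3] with p hp z hz
  change sinv ((p.2 : ℂ) : OnePoint ℂ) = (z : OnePoint ℂ) at hz
  change (QQ p.1).eval z ≠ 0
  have h6 : p.2 ≠ 0 := by
    intro h0
    rw [h0] at hz
    rw [sinv_zero] at hz
    exact OnePoint.infty_ne_coe z hz
  have h7 : z = 1 / p.2 := by
    have h8 : sinv ((p.2 : ℂ) : OnePoint ℂ) = ((1 / p.2 : ℂ) : OnePoint ℂ) := by
      rw [← pr_one p.2, sinv_pr (Or.inr one_ne_zero), pr_ne h6]
    rw [h8] at hz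
    exact (OnePoint.coe_injective hz).symm
  rw [hom_ne (QQ_deg p.1) h6] at hp
  rw [h7]
  exact right_ne_zero_of_mul hp

/-- **Openness.** -/
theorem goodE_open {d : ℕ} (hd : 0 < d) : IsOpen {x : EE d | GoodR d (PP x) (QQ x)} := by
  rw [isOpen_iff_mem_nhds]
  rintro x₀ ⟨hc, hPd, hQd, hinf, hcr⟩
  have hnd : ND x₀ := nd_of_coprime hd hc hQd
  have htop : x₀ (1, Fin.last d) ≠ 0 := (QQ_deg_iff hd x₀).1 hQd
  have e1 : ∀ᶠ x : EE d in 𝓝 x₀, x (1, Fin.last d) ≠ 0 :=
    (continuous_apply (1, Fin.last d)).continuousAt.eventually_ne htop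
  have hemb : ∀ z₀ : ℂ, ∀ R : EE d × OnePoint ℂ → Prop,
      (∀ᶠ p : EE d × ℂ in 𝓝 (x₀, z₀), R (p.1, (p.2 : OnePoint ℂ))) →
      ∀ᶠ p : EE d × OnePoint ℂ in 𝓝 (x₀, (z₀ : OnePoint ℂ)), R p := by
    intro z₀ R hR
    have h4 : IsOpenEmbedding (Prod.map (id : EE d → EE d) (fun w : ℂ => (w : OnePoint ℂ))) :=
      IsOpenEmbedding.id.prodMap OnePoint.isOpenEmbedding_coe
    have h5 : Prod.map (id : EE d → EE d) (fun w : ℂ => (w : OnePoint ℂ)) (x₀, z₀) =
        (x₀, (z₀ : OnePoint ℂ)) := rfl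
    rw [← h5, ← h4.map_nhds_eq, Filter.eventually_map]
    exact hR
  -- coprimality
  have e2 : ∀ y : OnePoint ℂ, ∀ᶠ p : EE d × OnePoint ℂ in 𝓝 (x₀, y),
      ∀ z : ℂ, p.2 = (z : OnePoint ℂ) → (PP p.1).eval z ≠ 0 ∨ (QQ p.1).eval z ≠ 0 := by
    intro y
    induction y using OnePoint.rec with
    | infty =>
      filter_upwards [den_infty htop] with p hp z hz
      exact Or.inr (hp z hz)
    | coe z₀ =>
      apply hemb
      rcases coprime_iff.1 hc z₀ with h | h
      · have h1 : ∀ᶠ p : EE d × ℂ in 𝓝 (x₀, z₀), (PP p.1).eval p.2 ≠ 0 :=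
          PP_cd.continuous.continuousAt.eventually_ne h
        filter_upwards [h1] with p hp z hz
        rw [← OnePoint.coe_injective hz]
        exact Or.inl hp
      · have h1 : ∀ᶠ p : EE d × ℂ in 𝓝 (x₀, z₀), (QQ p.1).eval p.2 ≠ 0 :=
          QQ_cd.continuous.continuousAt.eventually_ne h
        filter_upwards [h1] with p hp z hz
        rw [← OnePoint.coe_injective hz]
        exact Or.inr hp
  -- the critical points
  have e3 : ∀ y : OnePoint ℂ, ∀ᶠ p : EE d × OnePoint ℂ in 𝓝 (x₀, y),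
      ∀ z : ℂ, p.2 = (z : OnePoint ℂ) → (wr (PP p.1) (QQ p.1)).eval z = 0 →
        Att d (PP p.1) (QQ p.1) p.2 := by
    intro y
    induction y using OnePoint.rec with
    | infty =>
      filter_upwards [attE_stable hnd hinf] with p hp z _ _
      exact hp
    | coe z₀ =>
      by_cases h : (wr (PP x₀) (QQ x₀)).eval z₀ = 0
      · filter_upwards [attE_stable hnd (hcr z₀ h)] with p hp z _ _
        exact hp
      · apply hemb
        have h1 : ∀ᶠ p : EE d × ℂ in 𝓝 (x₀, z₀), (wr (PP p.1) (QQ p.1)).eval p.2 ≠ 0 :=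
          wrE_cont.continuousAt.eventually_ne h
        filter_upwards [h1] with p hp z hz h0
        rw [← OnePoint.coe_injective hz] at h0
        exact absurd h0 hp
  have e4 := (isCompact_univ : IsCompact (univ : Set (OnePoint ℂ))).eventually_forall_of_forall_eventually
    (x₀ := x₀) (P := fun x y => ∀ z : ℂ, y = (z : OnePoint ℂ) →
      (PP x).eval z ≠ 0 ∨ (QQ x).eval z ≠ 0) (fun y _ => e2 y)
  have e5 := (isCompact_univ : IsCompact (univ : Set (OnePoint ℂ))).eventually_forall_of_forall_eventually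
    (x₀ := x₀) (P := fun x y => ∀ z : ℂ, y = (z : OnePoint ℂ) →
      (wr (PP x) (QQ x)).eval z = 0 → Att d (PP x) (QQ x) y) (fun y _ => e3 y)
  have e6 : ∀ᶠ x : EE d in 𝓝 x₀, Att d (PP x) (QQ x) ∞ := by
    have h1 : ContinuousAt (fun x : EE d => ((x, ∞) : EE d × OnePoint ℂ)) x₀ := by
      exact continuousAt_id.prodMk continuousAt_const
    exact h1.eventually (attE_stable hnd hinf)
  filter_upwards [e1, e4, e5, e6] with x h1 h2 h3 h4
  exact ⟨coprime_iff.2 fun z => h2 z (mem_univ _) z rfl, PP_deg x, (QQ_deg_iff hd x).2 h1, h4,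
    fun z hz => h3 z (mem_univ _) z rfl hz⟩

end Pool.Agent.H211.LR
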