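import Pool.Agent.H211.LR.Open
import Pool.Agent.H211.LR.Ball

/-! The directions of perturbation. -/

set_option autoImplicit false

open Filter Topology Metric Set Polynomial MeasureTheory
open scoped OnePoint ENNReal

namespace Pool.Agent.H211.LR

open Pool.Agent.Helper114.Herman
open Pool.Agent.H792R2.CE Pool.Agent.H211.LD

/-- the coefficients of the rational maps with a critical point that is not attracted -/
def rbad (d : ℕ) : Set (EE d) := {x | ¬ GoodR d (PP x) (QQ x)}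

theorem PP_add_smul {d : ℕ} (x b : EE d) (s : ℂ) : PP (x + s • b) = PP x + C s * PP b :=
  pol_add_smul (fun i => x (0, i)) (fun i => b (0, i)) s

theorem QQ_add_smul {d : ℕ} (x b : EE d) (s : ℂ) : QQ (x + s • b) = QQ x + C s * QQ b :=
  pol_add_smul (fun i => x (1, i)) (fun i => b (1, i)) s

theorem PP_add {d : ℕ} (x b : EE d) : PP (x + b) = PP x + PP b := by
  have := PP_add_smul x b 1
  simpa using this

theorem QQ_add {d : ℕ} (x b : EE d) : QQ (x + b) = QQ x + QQ b := by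
  have := QQ_add_smul x b 1
  simpa using this

theorem pol_zero {n : ℕ} : pol (fun _ : Fin n => (0 : ℂ)) = 0 := by simp [pol]

theorem PP_zero {d : ℕ} : PP (0 : EE d) = 0 := pol_zero

theorem QQ_zero {d : ℕ} : QQ (0 : EE d) = 0 := pol_zero

theorem PP_smul {d : ℕ} (b : EE d) (s : ℂ) : PP (s • b) = C s * PP b := by
  have := PP_add_smul 0 b s
  rwa [zero_add, PP_zero, zero_add] at this

theorem QQ_smul {d : ℕ} (b : EE d) (s : ℂ) : QQ (s • b) = C s * QQ b := by
  have := QQ_add_smul 0 b s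
  rwa [zero_add, QQ_zero, zero_add] at this

theorem pol_of_coeff {d : ℕ} {H : ℂ[X]} (hH : H.natDegree ≤ d) :
    pol (fun i : Fin (d + 1) => H.coeff i) = H := by
  ext j
  rw [pol_coeff]
  split_ifs with h
  · rfl
  · exact (Polynomial.coeff_eq_zero_of_natDegree_lt (by omega)).symm

theorem PQ_surj {d : ℕ} {H G : ℂ[X]} (hH : H.natDegree ≤ d) (hG : G.natDegree ≤ d) :
    ∃ b : EE d, PP b = H ∧ QQ b = G := by
  refine ⟨fun p => if p.1 = 0 then H.coeff p.2 else G.coeff p.2, ?_, ?_⟩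
  · exact pol_of_coeff hH
  · exact pol_of_coeff hG

/-- **The directions.** -/
theorem dirs {d : ℕ} (hd : 2 ≤ d) {P Q : ℂ[X]} (hPQ : IsCoprime P Q) (hPd : P.natDegree ≤ d)
    (hQd : Q.natDegree = d) (hinf : Att d P Q ∞)
    (hnull : volume {z : ℂ | ¬ Att d P Q (z : OnePoint ℂ)} = 0)
    {μ : ℝ} (hμ : 1 < μ) (hexp : ∃ᶠ n : ℕ in atTop, GrR d P Q μ n)
    (hsimple : ∀ c : ℂ, (wr P Q).eval c = 0 → ¬ Att d P Q (c : OnePoint ℂ) →
      (wr P Q).rootMultiplicity c = 1 →
        Summable fun m => ‖deriv ((rf P Q)^[m]) (rf P Q c)‖⁻¹) :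
    ∃ 𝒱 : Finset (Submodule ℂ (EE d)), 𝒱.card ≤ 4 * (d - 1) ∧ (∀ V ∈ 𝒱, V ≠ ⊤) ∧
      ∀ b : EE d, (∀ V ∈ 𝒱, b ∉ V) →
        (∀ c : ℂ, (wr P Q).eval c = 0 → ¬ Att d P Q (c : OnePoint ℂ) →
          (wr (PP b) Q + wr P (QQ b)).eval c ≠ 0) ∧
        (∀ c : ℂ, (wr P Q).eval c = 0 → ¬ Att d P Q (c : OnePoint ℂ) →
          (wr P Q).rootMultiplicity c = 1 →
          (Summable fun j => (PP b * Q - P * QQ b).eval ((rf P Q)^[j] c) /
            Q.eval ((rf P Q)^[j] c) ^ 2 / deriv ((rf P Q)^[j]) (rf P Q c)) ∧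
          ∑' j, (PP b * Q - P * QQ b).eval ((rf P Q)^[j] c) / Q.eval ((rf P Q)^[j] c) ^ 2 /
            deriv ((rf P Q)^[j]) (rf P Q c) ≠ 0) := by
  classical
  have hd0 : 0 < d := by omega
  have hcont : Continuous (sph d P Q) := B1_continuous hPQ hPd hQd
  have hN : wr P Q ≠ 0 := wr_ne_zero hd0 hPQ hQd
  obtain ⟨Ks, hKs⟩ : ∃ Ks : Set ℂ, Ks = {z : ℂ | ¬ Att d P Q (z : OnePoint ℂ)} := ⟨_, rfl⟩
  have hKc : IsCompact Ks := by rw [hKs]; exact natt_compact hd0 hPQ hPd hQd hinf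
  have hstay : ∀ z ∈ Ks, ∀ n, (rf P Q)^[n] z ∈ Ks ∧ Q.eval ((rf P Q)^[n] z) ≠ 0 := by
    rw [hKs]; exact fun z hz n => natt_iter hcont hinf hz n
  have hKQ : ∀ z ∈ Ks, Q.eval z ≠ 0 := fun z hz => by
    have := (hstay z hz 0).2
    simpa using this
  have hmemK : ∀ z : ℂ, z ∈ Ks ↔ ¬ Att d P Q (z : OnePoint ℂ) := fun z => by rw [hKs]; rfl
  obtain ⟨bad, hbad⟩ : ∃ bad : Finset ℂ, (∀ c, c ∈ bad ↔ (wr P Q).eval c = 0 ∧ c ∈ Ks) ∧
      bad.card ≤ 2 * (d - 1) := by
    refine ⟨(wr P Q).roots.toFinset.filter (fun c => c ∈ Ks), fun c => ?_, ?_⟩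
    · rw [Finset.mem_filter, Multiset.mem_toFinset, Polynomial.mem_roots hN]
      rfl
    · refine (Finset.card_filter_le _ _).trans ((Multiset.toFinset_card_le _).trans
        ((Polynomial.card_roots' _).trans ?_))
      have := wr_natDegree (P := P) (Q := Q) (d := d) (by omega) hPd hQd.le
      omega
  obtain ⟨hbad, hcard⟩ := hbad
  have hexpb : ∃ᶠ n : ℕ in atTop, ∀ c ∈ bad,
      ∃ m ≤ n, μ ^ n ≤ ‖deriv ((rf P Q)^[m]) (rf P Q c)‖ := by
    refine hexp.mono fun n hn c hc => ?_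
    rcases hn c ((hbad c).1 hc).1 with h | h
    · exact absurd h ((hmemK c).1 ((hbad c).1 hc).2)
    · exact h
  have hne : ∀ c ∈ bad, ∀ j, deriv ((rf P Q)^[j]) (rf P Q c) ≠ 0 := by
    intro c hc j
    refine deriv_ne_of_expanding (fun j => ?_) hμ (hexpb.mono fun n hn => hn c hc) j
    have := (hstay c ((hbad c).1 hc).2 (j + 1)).2
    rwa [Function.iterate_succ_apply] at this
  have hdense : Dense {z : ℂ | Att d P Q (z : OnePoint ℂ)} := by
    apply Measure.dense_of_ae (μ := volume)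
    rw [ae_iff]
    exact hnull
  have hs2 : ∀ c ∈ bad, (wr P Q).rootMultiplicity c = 1 →
        Summable fun m => ‖deriv ((rf P Q)^[m]) (rf P Q c)‖⁻¹ := fun c hc hk =>
    hsimple c ((hbad c).1 hc).1 ((hmemK c).1 ((hbad c).1 hc).2) hk
  obtain ⟨H, G, hHd, hGd, hHG1, hHG2⟩ := direction hd hPQ hPd hQd hinf (bad := bad)
    (fun c hc => ⟨((hbad c).1 hc).1, (hmemK c).1 ((hbad c).1 hc).2⟩) hne hdense
    (by
      intro c hc hk
      refine ⟨?_, hs2 c hc hk⟩
      have h1 : closure (Set.range fun j => (rf P Q)^[j] (rf P Q c)) ⊆ Ks := by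
        refine closure_minimal ?_ hKc.isClosed
        rintro _ ⟨j, rfl⟩
        have h2 := (hstay c ((hbad c).1 hc).2 (j + 1)).1
        rwa [Function.iterate_succ_apply] at h2
      refine measure_mono_null h1 ?_
      rw [hKs]
      exact hnull)
  obtain ⟨b₁, hb₁, hb₂⟩ := PQ_surj hHd hGd
  have hsm : ∀ c ∈ bad, (wr P Q).rootMultiplicity c = 1 → ∀ S : ℂ[X],
      Summable fun j => S.eval ((rf P Q)^[j] c) / Q.eval ((rf P Q)^[j] c) ^ 2 /
        deriv ((rf P Q)^[j]) (rf P Q c) := by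
    intro c hc hk S
    obtain ⟨B, hB⟩ := hKc.exists_bound_of_continuousOn
      (f := fun z => S.eval z / Q.eval z ^ 2)
      (S.continuous.continuousOn.div (Q.continuous.continuousOn.pow 2)
        fun z hz => pow_ne_zero _ (hKQ z hz))
    refine Summable.of_norm_bounded ((hs2 c hc hk).mul_left B) fun j => ?_
    rw [div_eq_mul_inv, norm_mul, norm_inv]
    exact mul_le_mul_of_nonneg_right (hB _ (hstay c ((hbad c).1 hc).2 j).1) (by positivity)
  -- the linear forms
  have hL1 : ∀ c : ℂ, ∃ L : EE d →ₗ[ℂ] ℂ, ∀ b, L b = (wr (PP b) Q + wr P (QQ b)).eval c := by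
    intro c
    refine ⟨{ toFun := fun b => (wr (PP b) Q + wr P (QQ b)).eval c
              map_add' := ?_
              map_smul' := ?_ }, fun b => rfl⟩
    · intro a b
      rw [PP_add, QQ_add]
      simp only [wr, derivative_add, Polynomial.eval_add, Polynomial.eval_sub,
        Polynomial.eval_mul]
      ring
    · intro s b
      rw [PP_smul, QQ_smul]
      simp only [wr, derivative_C_mul, Polynomial.eval_add, Polynomial.eval_sub,
        Polynomial.eval_mul, Polynomial.eval_C, smul_eq_mul, RingHom.id_apply]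
      ring
  have hL2 : ∀ c : ℂ, ∃ L : EE d →ₗ[ℂ] ℂ, c ∈ bad → (wr P Q).rootMultiplicity c = 1 →
      ∀ b, L b = ∑' j, (PP b * Q - P * QQ b).eval ((rf P Q)^[j] c) /
        Q.eval ((rf P Q)^[j] c) ^ 2 / deriv ((rf P Q)^[j]) (rf P Q c) := by
    intro c
    by_cases hc : c ∈ bad ∧ (wr P Q).rootMultiplicity c = 1
    · refine ⟨{ toFun := fun b => ∑' j, (PP b * Q - P * QQ b).eval ((rf P Q)^[j] c) /
                  Q.eval ((rf P Q)^[j] c) ^ 2 / deriv ((rf P Q)^[j]) (rf P Q c)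
                map_add' := ?_
                map_smul' := ?_ }, fun _ _ b => rfl⟩
      · intro a b
        rw [← (hsm c hc.1 hc.2 _).tsum_add (hsm c hc.1 hc.2 _)]
        refine tsum_congr fun j => ?_
        rw [PP_add, QQ_add]
        simp only [Polynomial.eval_add, Polynomial.eval_sub, Polynomial.eval_mul]
        ring
      · intro s b
        rw [RingHom.id_apply, smul_eq_mul, ← tsum_mul_left]
        refine tsum_congr fun j => ?_
        rw [PP_smul, QQ_smul]
        simp only [Polynomial.eval_sub, Polynomial.eval_mul, Polynomial.eval_C]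
        ring
    · exact ⟨0, fun h1 h2 => absurd ⟨h1, h2⟩ hc⟩
  choose L₁ hL₁ using hL1
  choose L₂ hL₂ using hL2
  refine ⟨(bad.image fun c => LinearMap.ker (L₁ c)) ∪
    (bad.filter fun c => (wr P Q).rootMultiplicity c = 1).image fun c => LinearMap.ker (L₂ c),
    ?_, ?_, ?_⟩
  · refine (Finset.card_union_le _ _).trans ?_
    have h1 : (bad.image fun c => LinearMap.ker (L₁ c)).card ≤ bad.card := Finset.card_image_le
    have h2 : ((bad.filter fun c => (wr P Q).rootMultiplicity c = 1).image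
        fun c => LinearMap.ker (L₂ c)).card ≤ bad.card :=
      Finset.card_image_le.trans (Finset.card_filter_le _ _)
    omega
  · intro V hV htop
    rcases Finset.mem_union.1 hV with h | h
    · obtain ⟨c, hc, rfl⟩ := Finset.mem_image.1 h
      have h1 : b₁ ∈ LinearMap.ker (L₁ c) := by rw [htop]; trivial
      rw [LinearMap.mem_ker, hL₁, hb₁, hb₂] at h1
      exact hHG1 c hc h1
    · obtain ⟨c, hc, rfl⟩ := Finset.mem_image.1 h
      obtain ⟨hc, hk⟩ := Finset.mem_filter.1 hc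
      have h1 : b₁ ∈ LinearMap.ker (L₂ c) := by rw [htop]; trivial
      rw [LinearMap.mem_ker, hL₂ c hc hk, hb₁, hb₂] at h1
      exact (hHG2 c hc hk).2 h1
  · intro b hb
    constructor
    · intro c hc hA h0
      have hcb : c ∈ bad := (hbad c).2 ⟨hc, (hmemK c).2 hA⟩
      refine hb _ (Finset.mem_union_left _ (Finset.mem_image_of_mem _ hcb)) ?_
      rw [LinearMap.mem_ker, hL₁]
      exact h0
    · intro c hc hA hk
      have hcb : c ∈ bad := (hbad c).2 ⟨hc, (hmemK c).2 hA⟩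
      refine ⟨hsm c hcb hk _, fun h0 => ?_⟩
      refine hb _ (Finset.mem_union_right _ (Finset.mem_image_of_mem _
        (Finset.mem_filter.2 ⟨hcb, hk⟩))) ?_
      rw [LinearMap.mem_ker, hL₂ c hcb hk]
      exact h0

end Pool.Agent.H211.LR
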