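import Pool.Graph.R_seed8.H792R2.CE.Main
import Pool.Agent.H211.LD.Stab

/-! Rational maps: stability of attracted points in the space of all coefficients. -/

set_option autoImplicit false

open Filter Topology Metric Set Polynomial MeasureTheory
open scoped OnePoint

namespace Pool.Agent.H211.LR

open Pool.Agent.Helper114.Herman
open Pool.Agent.H792R2.CE Pool.Agent.H211.LD
open Pool.Agent.H792R2.CE.C1x (finite_orbit orbit_of_ne)

/-- the space of the coefficients -/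
abbrev EE (d : ℕ) : Type := Fin 2 × Fin (d + 1) → ℂ

/-- the numerator -/
noncomputable def PP {d : ℕ} (x : EE d) : ℂ[X] := pol fun i => x (0, i)

/-- the denominator -/
noncomputable def QQ {d : ℕ} (x : EE d) : ℂ[X] := pol fun i => x (1, i)

theorem PP_deg {d : ℕ} (x : EE d) : (PP x).natDegree ≤ d := pol_natDegree_le _

theorem QQ_deg {d : ℕ} (x : EE d) : (QQ x).natDegree ≤ d := pol_natDegree_le _

theorem ev_cd {d : ℕ} (j : Fin 2) :
    ContDiff ℂ 1 (fun p : EE d × ℂ => (pol fun i => p.1 (j, i)).eval p.2) := by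
  simp only [pol_eval, ev]
  refine ContDiff.sum fun i _ => ?_
  refine ContDiff.mul ?_ (contDiff_snd.pow _)
  exact (contDiff_apply ℂ ℂ (j, i)).comp contDiff_fst

theorem PP_cd {d : ℕ} : ContDiff ℂ 1 (fun p : EE d × ℂ => (PP p.1).eval p.2) := ev_cd 0

theorem QQ_cd {d : ℕ} : ContDiff ℂ 1 (fun p : EE d × ℂ => (QQ p.1).eval p.2) := ev_cd 1

theorem hom_cont {d : ℕ} (j : Fin 2) {a b : ℂ → ℂ} (ha : Continuous a) (hb : Continuous b) :
    Continuous (fun p : EE d × ℂ => hom (pol fun i => p.1 (j, i)) d (a p.2) (b p.2)) := by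
  unfold hom
  refine continuous_finsetSum _ fun k hk => ?_
  have hk' : k < d + 1 := Finset.mem_range.1 hk
  have h1 : ∀ x : EE d, (pol fun i => x (j, i)).coeff k = x (j, ⟨k, hk'⟩) := by
    intro x
    rw [pol_coeff, dif_pos hk']
  simp only [h1]
  have h2 : Continuous (fun p : EE d × ℂ => p.1 (j, ⟨k, hk'⟩)) :=
    (continuous_apply _).comp continuous_fst
  exact (h2.mul ((ha.comp continuous_snd).pow _)).mul ((hb.comp continuous_snd).pow _)

/-- homogeneous forms without common zeros -/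
def ND {d : ℕ} (x : EE d) : Prop :=
  ∀ u v : ℂ, (u ≠ 0 ∨ v ≠ 0) → hom (PP x) d u v ≠ 0 ∨ hom (QQ x) d u v ≠ 0

theorem nd_of_coprime {d : ℕ} (hd : 0 < d) {x : EE d} (hc : IsCoprime (PP x) (QQ x))
    (hQ : (QQ x).natDegree = d) : ND x := by
  intro u v huv
  have hmax : d = max (PP x).natDegree (QQ x).natDegree := by
    rw [hQ, max_eq_right (PP_deg x)]
  exact hom_not_both hc hmax huv hd

theorem chartE {d : ℕ} {x₀ : EE d} (hnd : ND x₀) {a b : ℂ → ℂ} (ha : Continuous a)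
    (hb : Continuous b) (hab : ∀ w, a w ≠ 0 ∨ b w ≠ 0) (w : ℂ) :
    ContinuousAt (fun p : EE d × ℂ =>
      sph d (PP p.1) (QQ p.1) (pr (a p.2) (b p.2))) (x₀, w) := by
  have h1 : (fun p : EE d × ℂ => sph d (PP p.1) (QQ p.1) (pr (a p.2) (b p.2))) =
      (fun q : ℂ × ℂ => pr q.1 q.2) ∘ fun p : EE d × ℂ =>
        (hom (PP p.1) d (a p.2) (b p.2), hom (QQ p.1) d (a p.2) (b p.2)) := by
    funext p
    rw [B2x.sph_pr (PP_deg _) (QQ_deg _) (hab _)]
    rfl
  rw [h1]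
  refine ContinuousAt.comp ?_ (((hom_cont 0 ha hb).prodMk (hom_cont 1 ha hb)).continuousAt)
  exact continuousAt_pr (hnd _ _ (hab w))

theorem stepE {d : ℕ} {x₀ : EE d} (hnd : ND x₀) (y : OnePoint ℂ) :
    ContinuousAt (fun p : EE d × OnePoint ℂ => sph d (PP p.1) (QQ p.1) p.2) (x₀, y) := by
  have main : ∀ (e : ℂ → OnePoint ℂ) (a b : ℂ → ℂ), IsOpenEmbedding e → Continuous a →
      Continuous b → (∀ w, a w ≠ 0 ∨ b w ≠ 0) → (∀ w, e w = pr (a w) (b w)) → ∀ w : ℂ,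
      ContinuousAt (fun p : EE d × OnePoint ℂ =>
        sph d (PP p.1) (QQ p.1) p.2) (x₀, e w) := by
    intro e a b he ha hb hab hee w
    have h1 : IsOpenEmbedding (Prod.map (id : EE d → EE d) e) := IsOpenEmbedding.id.prodMap he
    have h2 := h1.continuousAt_iff (g := fun p : EE d × OnePoint ℂ =>
        sph d (PP p.1) (QQ p.1) p.2) (x := (x₀, w))
    refine h2.1 ?_
    have h3 := chartE hnd ha hb hab w
    refine h3.congr (Eventually.of_forall fun p => ?_)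
    simp [hee]
  induction y using OnePoint.rec with
  | infty =>
    have he : IsOpenEmbedding (fun w : ℂ => sinv (w : OnePoint ℂ)) :=
      sinvHomeo.isOpenEmbedding.comp OnePoint.isOpenEmbedding_coe
    have := main _ (fun _ => 1) (fun w => w) he continuous_const continuous_id
      (fun w => Or.inl one_ne_zero) (fun w => by rw [← pr_one w, sinv_pr (Or.inr one_ne_zero)]) 0
    simpa [sinv_zero] using this
  | coe z =>
    exact main _ (fun w => w) (fun _ => 1) OnePoint.isOpenEmbedding_coe continuous_id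
      continuous_const (fun w => Or.inr one_ne_zero) (fun w => (pr_one w).symm) z

/-- joint continuity of the iterates -/
theorem jointE {d : ℕ} {x₀ : EE d} (hnd : ND x₀) (n : ℕ) (y : OnePoint ℂ) :
    ContinuousAt (fun p : EE d × OnePoint ℂ => (sph d (PP p.1) (QQ p.1))^[n] p.2) (x₀, y) := by
  induction n with
  | zero => exact continuousAt_snd
  | succ n ih =>
    have h1 : (fun p : EE d × OnePoint ℂ => (sph d (PP p.1) (QQ p.1))^[n + 1] p.2) =
        (fun p : EE d × OnePoint ℂ => sph d (PP p.1) (QQ p.1) p.2) ∘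
          fun p : EE d × OnePoint ℂ => (p.1, (sph d (PP p.1) (QQ p.1))^[n] p.2) := by
      funext p
      simp [Function.iterate_succ_apply']
    rw [h1]
    exact ContinuousAt.comp (stepE hnd _) (continuousAt_fst.prodMk ih)

/-- iterates of the plane family -/
noncomputable def fnE {d : ℕ} (x₀ : EE d) (n : ℕ) (p : EE d × ℂ) : ℂ :=
  (rf (PP (x₀ + p.1)) (QQ (x₀ + p.1)))^[n] p.2

theorem fn_zero_left {d : ℕ} (x₀ : EE d) (n : ℕ) (z : ℂ) :
    fnE x₀ n (0, z) = (rf (PP x₀) (QQ x₀))^[n] z := by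
  unfold fnE
  simp only [add_zero]

theorem rfE_cd {d : ℕ} (x₀ : EE d) {p : EE d × ℂ} (h : (QQ (x₀ + p.1)).eval p.2 ≠ 0) :
    ContDiffAt ℂ 1 (fun q : EE d × ℂ => rf (PP (x₀ + q.1)) (QQ (x₀ + q.1)) q.2) p := by
  have h0 : ContDiff ℂ 1 (fun q : EE d × ℂ => (x₀ + q.1, q.2)) :=
    (contDiff_const.add contDiff_fst).prodMk contDiff_snd
  have h1 : ContDiff ℂ 1 (fun q : EE d × ℂ => (PP (x₀ + q.1)).eval q.2) :=
    ContDiff.comp (g := fun p : EE d × ℂ => (PP p.1).eval p.2) PP_cd h0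
  have h2 : ContDiff ℂ 1 (fun q : EE d × ℂ => (QQ (x₀ + q.1)).eval q.2) :=
    ContDiff.comp (g := fun p : EE d × ℂ => (QQ p.1).eval p.2) QQ_cd h0
  exact h1.contDiffAt.div h2.contDiffAt h

theorem fn_contDiffAt {d : ℕ} {x₀ : EE d} {z : ℂ}
    (h : ∀ i : ℕ, (QQ x₀).eval ((rf (PP x₀) (QQ x₀))^[i] z) ≠ 0) (n : ℕ) :
    ContDiffAt ℂ 1 (fnE x₀ n) (0, z) := by
  induction n with
  | zero => exact contDiffAt_snd
  | succ n ih =>
    have h0 : fnE x₀ n (0, z) = (rf (PP x₀) (QQ x₀))^[n] z := fn_zero_left x₀ n z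
    have h1 : ContDiffAt ℂ 1
        (fun q : EE d × ℂ => rf (PP (x₀ + q.1)) (QQ (x₀ + q.1)) q.2)
        ((0 : EE d), fnE x₀ n (0, z)) := by
      apply rfE_cd
      rw [h0]
      simpa using h n
    have h2 : ContDiffAt ℂ 1 (fun p : EE d × ℂ => (p.1, fnE x₀ n p)) ((0 : EE d), z) :=
      contDiffAt_fst.prodMk ih
    have h3 := ContDiffAt.comp ((0 : EE d), z)
      (g := fun q : EE d × ℂ => rf (PP (x₀ + q.1)) (QQ (x₀ + q.1)) q.2)
      (f := fun p : EE d × ℂ => (p.1, fnE x₀ n p)) h1 h2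
    have h4 : (fnE x₀ (n + 1)) =
        (fun q : EE d × ℂ => rf (PP (x₀ + q.1)) (QQ (x₀ + q.1)) q.2) ∘
          (fun p : EE d × ℂ => (p.1, fnE x₀ n p)) := by
      funext p
      simp only [Function.comp_apply, fnE, Function.iterate_succ_apply']
    rw [h4]
    exact h3

theorem den_ne {d : ℕ} {x₀ : EE d} {z : ℂ}
    (h : ∀ i : ℕ, (QQ x₀).eval ((rf (PP x₀) (QQ x₀))^[i] z) ≠ 0) (n : ℕ) :
    ∀ᶠ p : EE d × ℂ in 𝓝 ((0 : EE d), z), (QQ (x₀ + p.1)).eval (fnE x₀ n p) ≠ 0 := by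
  have hc : ContinuousAt (fun p : EE d × ℂ => (QQ (x₀ + p.1)).eval (fnE x₀ n p))
      ((0 : EE d), z) := by
    have h1 : ContinuousAt (fnE x₀ n) ((0 : EE d), z) := (fn_contDiffAt h n).continuousAt
    have h2 : ContinuousAt (fun p : EE d × ℂ => ((x₀ + p.1, fnE x₀ n p) : EE d × ℂ))
        ((0 : EE d), z) := (continuousAt_const.add continuousAt_fst).prodMk h1
    exact ContinuousAt.comp (g := fun p : EE d × ℂ => (QQ p.1).eval p.2)
      (f := fun p : EE d × ℂ => ((x₀ + p.1, fnE x₀ n p) : EE d × ℂ))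
      (QQ_cd.continuous.continuousAt) h2
  apply hc.eventually_ne
  rw [fn_zero_left]
  simpa using h n

/-- C1. attracted points stay attracted under perturbation of the map and of the point. -/
theorem C1E {d : ℕ} {x₀ : EE d}
    (hB : ∀ (n : ℕ) (x : OnePoint ℂ), ContinuousAt (fun p : EE d × OnePoint ℂ =>
      (sph d (PP (x₀ + p.1)) (QQ (x₀ + p.1)))^[n] p.2) (0, x))
    {x : OnePoint ℂ} (hx : Att d (PP x₀) (QQ x₀) x) :
    ∀ᶠ p : EE d × OnePoint ℂ in 𝓝 (0, x), Att d (PP (x₀ + p.1)) (QQ (x₀ + p.1)) p.2 := by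
  obtain ⟨n, hn, z₀, hfin, hper, hmult, ht⟩ := hx
  have hQ : ∀ i : ℕ, (QQ x₀).eval ((rf (PP x₀) (QQ x₀))^[i] z₀) ≠ 0 := fun i => (finite_orbit hfin i).2
  have hfix : (rf (PP x₀) (QQ x₀))^[n] z₀ = z₀ := by
    have h1 := (finite_orbit hfin n).1
    rw [hper] at h1
    exact (OnePoint.coe_injective h1).symm
  set g : EE d × ℂ → ℂ := fnE x₀ n with hg
  have hg0 : ContDiffAt ℂ 1 g ((0 : EE d), z₀) := fn_contDiffAt hQ n
  have hgd : ∀ p : EE d × ℂ, ContDiffAt ℂ 1 g p →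
      HasDerivAt ((rf (PP (x₀ + p.1)) (QQ (x₀ + p.1)))^[n]) (fderiv ℂ g p (0, 1)) p.2 := by
    intro p hp
    have h1 : HasFDerivAt g (fderiv ℂ g p) (p.1, p.2) :=
      (hp.differentiableAt (by norm_num)).hasFDerivAt
    have h2 : HasDerivAt (fun w : ℂ => ((p.1, w) : EE d × ℂ)) ((0, 1) : EE d × ℂ) p.2 :=
      (hasDerivAt_const p.2 p.1).prodMk (hasDerivAt_id p.2)
    exact h1.comp_hasDerivAt p.2 h2
  obtain ⟨lam, hlam1, hlam2⟩ := exists_between hmult
  have hlam0 : 0 ≤ lam := (norm_nonneg _).trans hlam1.le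
  have hDc : ContinuousAt (fun p : EE d × ℂ => ‖fderiv ℂ g p (0, 1)‖) ((0 : EE d), z₀) := by
    have h1 : ContDiffAt ℂ 0 (fderiv ℂ g) ((0 : EE d), z₀) := hg0.fderiv_right (by norm_num)
    exact (h1.continuousAt.clm_apply continuousAt_const).norm
  have hD0 : ‖fderiv ℂ g ((0 : EE d), z₀) (0, 1)‖ < lam := by
    have h1 := (hgd _ hg0).deriv
    simp only [add_zero] at h1
    rw [← h1]
    exact hlam1
  have hev : ∀ᶠ p : EE d × ℂ in 𝓝 ((0 : EE d), z₀), ‖fderiv ℂ g p (0, 1)‖ < lam ∧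
      ContDiffAt ℂ 1 g p ∧
      (∀ i ∈ Finset.range n, (QQ (x₀ + p.1)).eval (fnE x₀ i p) ≠ 0) := by
    have h1 : ∀ᶠ p : EE d × ℂ in 𝓝 ((0 : EE d), z₀), ‖fderiv ℂ g p (0, 1)‖ < lam :=
      hDc.tendsto.eventually (Iio_mem_nhds hD0)
    have h2 : ∀ᶠ p : EE d × ℂ in 𝓝 ((0 : EE d), z₀), ContDiffAt ℂ 1 g p :=
      hg0.eventually (by norm_num)
    have h3 : ∀ᶠ p : EE d × ℂ in 𝓝 ((0 : EE d), z₀),
        ∀ i ∈ Finset.range n, (QQ (x₀ + p.1)).eval (fnE x₀ i p) ≠ 0 :=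
      (Finset.eventually_all _).2 fun i _ => den_ne hQ i
    filter_upwards [h1, h2, h3] with p a b c
    exact ⟨a, b, c⟩
  obtain ⟨η₀, hη₀, hball⟩ := Metric.mem_nhds_iff.1 hev
  set η := η₀ / 2 with hη
  have hηpos : 0 < η := by rw [hη]; linarith
  have hin : ∀ a z, ‖a‖ < η₀ → z ∈ closedBall z₀ η → ((a, z) : EE d × ℂ) ∈ ball ((0 : EE d), z₀) η₀ := by
    intro a z ha hz
    rw [mem_ball, Prod.dist_eq, max_lt_iff]
    refine ⟨by simpa using ha, ?_⟩
    rw [mem_closedBall] at hz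
    exact lt_of_le_of_lt hz (by rw [hη]; linarith)
  have hgd' : ∀ a z, ‖a‖ < η₀ → z ∈ closedBall z₀ η →
      HasDerivAt ((rf (PP (x₀ + a)) (QQ (x₀ + a)))^[n]) (fderiv ℂ g (a, z) (0, 1)) z :=
    fun a z ha hz => hgd (a, z) (hball (hin a z ha hz)).2.1
  have hDη : ∀ a z, ‖a‖ < η₀ → z ∈ closedBall z₀ η →
      ‖deriv ((rf (PP (x₀ + a)) (QQ (x₀ + a)))^[n]) z‖ ≤ lam := by
    intro a z ha hz
    rw [(hgd' a z ha hz).deriv]
    exact (hball (hin a z ha hz)).1.le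
  -- displacement of the centre
  have hdisp : ∀ᶠ a : EE d in 𝓝 0,
      ‖(rf (PP (x₀ + a)) (QQ (x₀ + a)))^[n] z₀ - z₀‖ < (1 - lam) * η := by
    have hc : ContinuousAt (fun a : EE d => g (a, z₀)) 0 := by
      have h1 : ContinuousAt g ((0 : EE d), z₀) := hg0.continuousAt
      have h2 : ContinuousAt (fun a : EE d => ((a, z₀) : EE d × ℂ)) 0 := by fun_prop
      exact ContinuousAt.comp (f := fun a : EE d => ((a, z₀) : EE d × ℂ)) h1 h2
    have hc2 : ContinuousAt (fun a : EE d => ‖g (a, z₀) - z₀‖) 0 := (hc.sub continuousAt_const).norm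
    have h0 : ‖g ((0 : EE d), z₀) - z₀‖ < (1 - lam) * η := by
      rw [hg, fn_zero_left, hfix, sub_self, norm_zero]
      exact mul_pos (by linarith) hηpos
    exact hc2.tendsto.eventually (Iio_mem_nhds h0)
  obtain ⟨δ₁, hδ₁, hδ₁'⟩ := Metric.mem_nhds_iff.1 hdisp
  have hmap : ∀ a, ‖a‖ < min η₀ δ₁ →
      MapsTo ((rf (PP (x₀ + a)) (QQ (x₀ + a)))^[n]) (closedBall z₀ η) (closedBall z₀ η) ∧
      LipschitzOnWith ⟨lam, hlam0⟩ ((rf (PP (x₀ + a)) (QQ (x₀ + a)))^[n])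
        (closedBall z₀ η) := by
    intro a ha
    have ha1 : ‖a‖ < η₀ := lt_of_lt_of_le ha (min_le_left _ _)
    have ha2 : ‖a‖ < δ₁ := lt_of_lt_of_le ha (min_le_right _ _)
    have hL : LipschitzOnWith ⟨lam, hlam0⟩ ((rf (PP (x₀ + a)) (QQ (x₀ + a)))^[n])
        (closedBall z₀ η) := by
      apply (convex_closedBall z₀ η).lipschitzOnWith_of_nnnorm_deriv_le
        (fun z hz => (hgd' a z ha1 hz).differentiableAt)
      intro z hz
      have := hDη a z ha1 hz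
      exact_mod_cast this
    refine ⟨?_, hL⟩
    intro z hz
    have h1 := hL.dist_le_mul z hz z₀ (mem_closedBall_self hηpos.le)
    have h2 : dist ((rf (PP (x₀ + a)) (QQ (x₀ + a)))^[n] z₀) z₀ < (1 - lam) * η := by
      rw [dist_eq_norm]
      have : a ∈ ball (0 : EE d) δ₁ := by simpa using ha2
      exact hδ₁' this
    rw [mem_closedBall] at hz ⊢
    have h3 : dist ((rf (PP (x₀ + a)) (QQ (x₀ + a)))^[n] z) z₀ ≤
        dist ((rf (PP (x₀ + a)) (QQ (x₀ + a)))^[n] z)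
          ((rf (PP (x₀ + a)) (QQ (x₀ + a)))^[n] z₀) +
        dist ((rf (PP (x₀ + a)) (QQ (x₀ + a)))^[n] z₀) z₀ := dist_triangle _ _ _
    have h4 : ((⟨lam, hlam0⟩ : NNReal) : ℝ) * dist z z₀ ≤ lam * η := by
      change lam * dist z z₀ ≤ lam * η
      exact mul_le_mul_of_nonneg_left hz hlam0
    have h5 : (1 - lam) * η + lam * η = η := by ring
    have h6 := h1.trans h4
    linarith
  -- entering time
  have hopen : IsOpen ((fun z : ℂ => (z : OnePoint ℂ)) '' ball z₀ η) :=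
    OnePoint.isOpenEmbedding_coe.isOpenMap _ isOpen_ball
  obtain ⟨K, hK⟩ := (ht.eventually (hopen.mem_nhds
    ⟨z₀, mem_ball_self hηpos, rfl⟩)).exists
  have h1 : ∀ᶠ p : EE d × OnePoint ℂ in 𝓝 ((0 : EE d), x),
      (sph d (PP (x₀ + p.1)) (QQ (x₀ + p.1)))^[n * K] p.2 ∈
        (fun z : ℂ => (z : OnePoint ℂ)) '' ball z₀ η := by
    apply (hB (n * K) x).tendsto.eventually
    apply hopen.mem_nhds
    simp only [add_zero]
    exact hK
  have h2 : ∀ᶠ p : EE d × OnePoint ℂ in 𝓝 ((0 : EE d), x), ‖p.1‖ < min η₀ δ₁ := by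
    have hc : Continuous (fun p : EE d × OnePoint ℂ => ‖p.1‖) := by fun_prop
    have h0 : ‖(((0 : EE d), x) : EE d × OnePoint ℂ).1‖ < min η₀ δ₁ := by
      simpa using ⟨hη₀, hδ₁⟩
    exact (hc.tendsto ((0 : EE d), x)).eventually (Iio_mem_nhds h0)
  filter_upwards [h1, h2] with p hp1 hp2
  obtain ⟨w, hw, hwe⟩ := hp1
  have hwe' : (sph d (PP (x₀ + p.1)) (QQ (x₀ + p.1)))^[n * K] p.2 = (w : OnePoint ℂ) := hwe.symm
  obtain ⟨hmaps, hL⟩ := hmap p.1 hp2
  have hp3 : ‖p.1‖ < η₀ := lt_of_lt_of_le hp2 (min_le_left _ _)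
  set f : ℂ → ℂ := rf (PP (x₀ + p.1)) (QQ (x₀ + p.1)) with hf
  set F : OnePoint ℂ → OnePoint ℂ := sph d (PP (x₀ + p.1)) (QQ (x₀ + p.1)) with hF
  have horb : ∀ z ∈ closedBall z₀ η, ∀ i ≤ n, F^[i] (z : OnePoint ℂ) =
      ((f^[i] z : ℂ) : OnePoint ℂ) := by
    intro z hz i hi
    apply orbit_of_ne (n := n) _ i hi
    intro j hj
    exact (hball (hin p.1 z hp3 hz)).2.2 j (Finset.mem_range.2 hj)
  have horb2 : ∀ k : ℕ, ∀ z ∈ closedBall z₀ η, F^[n * k] (z : OnePoint ℂ) =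
      (((f^[n])^[k] z : ℂ) : OnePoint ℂ) ∧ (f^[n])^[k] z ∈ closedBall z₀ η := by
    intro k
    induction k with
    | zero => intro z hz; exact ⟨rfl, hz⟩
    | succ k ih =>
      intro z hz
      have h3 : F^[n * (k + 1)] (z : OnePoint ℂ) = F^[n * k] (F^[n] (z : OnePoint ℂ)) := by
        rw [Nat.mul_succ, Function.iterate_add_apply]
      rw [h3, horb z hz n le_rfl, Function.iterate_succ_apply]
      exact ih _ (hmaps hz)
  have hcontr : ContractingWith ⟨lam, hlam0⟩ (hmaps.restrict (f^[n]) _ _) := by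
    refine ⟨?_, hL.mapsToRestrict hmaps⟩
    exact_mod_cast hlam2
  obtain ⟨y, hys, hyf, hyt, -⟩ := hcontr.exists_fixedPoint' (isClosed_closedBall.isComplete)
    hmaps (ball_subset_closedBall hw) (edist_ne_top _ _)
  have hyk : ∀ k : ℕ, (f^[n])^[k] y = y := fun k => hyf.iterate k
  refine ⟨n, hn, y, ?_, ?_, lt_of_le_of_lt (hDη p.1 y hp3 hys) hlam2, ?_⟩
  · intro i
    have h3 : F^[i] (y : OnePoint ℂ) = F^[i % n] (F^[n * (i / n)] (y : OnePoint ℂ)) := by
      rw [← Function.iterate_add_apply, Nat.mod_add_div]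
    rw [h3, (horb2 (i / n) y hys).1, hyk, horb y hys (i % n) (Nat.mod_lt _ hn).le]
    exact OnePoint.coe_ne_infty _
  · rw [horb y hys n le_rfl]
    have : f^[n] y = y := hyf
    rw [this]
  · rw [← tendsto_add_atTop_iff_nat K]
    have h3 : (fun k : ℕ => F^[n * (k + K)] p.2) =
        fun k : ℕ => (((f^[n])^[k] w : ℂ) : OnePoint ℂ) := by
      ext1 k
      rw [Nat.mul_add, Function.iterate_add_apply, hwe', (horb2 k w (ball_subset_closedBall hw)).1]
    rw [h3]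
    exact (OnePoint.continuous_coe.tendsto y).comp hyt


/-- attracted points stay attracted under perturbation of the coefficients and of the point -/
theorem attE_stable {d : ℕ} {x₀ : EE d} (hnd : ND x₀) {y : OnePoint ℂ}
    (hy : Att d (PP x₀) (QQ x₀) y) :
    ∀ᶠ p : EE d × OnePoint ℂ in 𝓝 (x₀, y), Att d (PP p.1) (QQ p.1) p.2 := by
  have h1 : ∀ (n : ℕ) (x : OnePoint ℂ), ContinuousAt (fun p : EE d × OnePoint ℂ =>
      (sph d (PP (x₀ + p.1)) (QQ (x₀ + p.1)))^[n] p.2) (0, x) := by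
    intro n x
    have h2 : ContinuousAt (fun p : EE d × OnePoint ℂ => ((x₀ + p.1, p.2) : EE d × OnePoint ℂ))
        ((0 : EE d), x) := (continuousAt_const.add continuousAt_fst).prodMk continuousAt_snd
    refine ContinuousAt.comp (g := fun p : EE d × OnePoint ℂ =>
      (sph d (PP p.1) (QQ p.1))^[n] p.2)
      (f := fun p : EE d × OnePoint ℂ => ((x₀ + p.1, p.2) : EE d × OnePoint ℂ)) ?_ h2
    simpa using jointE hnd n x
  have h2 := C1E h1 hy
  have h3 : Tendsto (fun p : EE d × OnePoint ℂ => ((p.1 - x₀, p.2) : EE d × OnePoint ℂ))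
      (𝓝 (x₀, y)) (𝓝 (0, y)) := by
    have h4 : ContinuousAt (fun p : EE d × OnePoint ℂ =>
        ((p.1 - x₀, p.2) : EE d × OnePoint ℂ)) (x₀, y) :=
      (continuousAt_fst.sub continuousAt_const).prodMk continuousAt_snd
    have h5 := h4.tendsto
    simpa using h5
  filter_upwards [h3.eventually h2] with p hp
  simpa using hp

end Pool.Agent.H211.LR
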